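import Mathlib

/-!
# Random functions: discrepancy and sparse sets
-/

namespace Pool.Agent.H697.Exp

open Finset

variable {C : Type} [Fintype C] [DecidableEq C] {D N : ℕ}

/-- The number of slots `(c, d, x)` with `x ∈ A` which are mapped into `A'`. -/
def Zc (c : C) (A A' : Finset (Fin N)) (f : C × Fin D × Fin N → Fin N) : ℕ :=
  (univ.filter fun s : C × Fin D × Fin N => (s.1 = c ∧ s.2.2 ∈ A) ∧ f s ∈ A').card

theorem card_slots (c : C) (A : Finset (Fin N)) :
    (univ.filter fun s : C × Fin D × Fin N => s.1 = c ∧ s.2.2 ∈ A).card = D * A.card := by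
  have : (univ.filter fun s : C × Fin D × Fin N => s.1 = c ∧ s.2.2 ∈ A) =
      {c} ×ˢ (univ ×ˢ A) := by
    ext ⟨s1, s2, s3⟩
    simp only [mem_filter, mem_univ, true_and, mem_product, mem_singleton]
  rw [this, card_product, card_product, card_singleton, one_mul, card_univ, Fintype.card_fin]

theorem sum_exp (c : C) (A A' : Finset (Fin N)) (hN : 0 < N) {l : ℝ} (hl : 0 ≤ l) (hl1 : l ≤ 1) :
    ∑ f : C × Fin D × Fin N → Fin N, Real.exp (l * Zc c A A' f) ≤
      (N : ℝ) ^ (Fintype.card (C × Fin D × Fin N)) *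
        Real.exp ((l + l ^ 2) * (D * A.card * A'.card / N)) := by
  classical
  have hN' : (0 : ℝ) < N := by exact_mod_cast hN
  have h1 : ∀ f : C × Fin D × Fin N → Fin N, Real.exp (l * Zc c A A' f) =
      ∏ s, Real.exp (l * if (s.1 = c ∧ s.2.2 ∈ A) ∧ f s ∈ A' then 1 else 0) := by
    intro f
    rw [← Real.exp_sum, ← Finset.mul_sum]
    congr 2
    unfold Zc
    rw [Finset.card_filter]
    push_cast
    rfl
  simp only [h1]
  have h2 := Finset.prod_univ_sum (fun _ : C × Fin D × Fin N => (univ : Finset (Fin N)))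
    (fun s y => Real.exp (l * if (s.1 = c ∧ s.2.2 ∈ A) ∧ y ∈ A' then 1 else 0))
  rw [Fintype.piFinset_univ] at h2
  rw [← h2]
  have h3 : ∀ s : C × Fin D × Fin N,
      ∑ y : Fin N, Real.exp (l * if (s.1 = c ∧ s.2.2 ∈ A) ∧ y ∈ A' then 1 else 0) ≤
      N * Real.exp ((l + l ^ 2) * ((if s.1 = c ∧ s.2.2 ∈ A then 1 else 0) * (A'.card / N))) := by
    intro s
    by_cases hs : s.1 = c ∧ s.2.2 ∈ A
    · simp only [hs, true_and, and_self, if_true, one_mul]
      have h4 : ∑ y : Fin N, Real.exp (l * if y ∈ A' then 1 else 0) =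
          N * (1 + (Real.exp l - 1) * (A'.card / N)) := by
        have h5 : ∀ y : Fin N, Real.exp (l * if y ∈ A' then 1 else 0) =
            1 + (Real.exp l - 1) * (if y ∈ A' then 1 else 0) := by
          intro y
          split_ifs <;> simp
        simp only [h5]
        rw [Finset.sum_add_distrib, ← Finset.mul_sum, Finset.sum_const, Finset.card_univ,
          Fintype.card_fin, nsmul_eq_mul, mul_one]
        have h6 : (∑ y : Fin N, if y ∈ A' then (1 : ℝ) else 0) = A'.card := by
          rw [Finset.sum_ite_mem, Finset.univ_inter, Finset.sum_const, nsmul_eq_mul]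
          simp
        rw [h6]
        field_simp
      rw [h4]
      refine mul_le_mul_of_nonneg_left ?_ hN'.le
      have h7 : Real.exp l - 1 ≤ l + l ^ 2 := by
        have := Real.abs_exp_sub_one_sub_id_le (x := l) (by rw [abs_of_nonneg hl]; exact hl1)
        have := (abs_le.1 this).2
        linarith
      have h8 : (0 : ℝ) ≤ A'.card / N := by positivity
      have h9 : (Real.exp l - 1) * (A'.card / N) ≤ (l + l ^ 2) * (A'.card / N) :=
        mul_le_mul_of_nonneg_right h7 h8
      have h10 := Real.add_one_le_exp ((l + l ^ 2) * ((A'.card : ℝ) / N))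
      linarith
    · simp only [hs, false_and, if_false, mul_zero, zero_mul, Real.exp_zero, mul_one]
      simp
  refine (Finset.prod_le_prod (fun s _ => Finset.sum_nonneg fun y _ => (Real.exp_pos _).le)
    fun s _ => h3 s).trans (le_of_eq ?_)
  rw [Finset.prod_mul_distrib, Finset.prod_const, Finset.card_univ, ← Real.exp_sum]
  congr 2
  rw [← Finset.mul_sum, ← Finset.sum_mul]
  congr 1
  have h4 : (∑ s : C × Fin D × Fin N, if s.1 = c ∧ s.2.2 ∈ A then (1 : ℝ) else 0) =
      D * A.card := by
    rw [← Nat.cast_mul, ← card_slots c A, Finset.card_filter]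
    push_cast
    rfl
  rw [h4]
  ring

theorem disc_count (c : C) (A A' : Finset (Fin N)) (hN : 0 < N) {τ : ℝ} (hτ : 0 < τ)
    (hτ1 : τ ≤ 1) :
    ((univ.filter fun f : C × Fin D × Fin N → Fin N =>
      (D * A.card * A'.card / N + τ * D * N : ℝ) < Zc c A A' f).card : ℝ) ≤
      (N : ℝ) ^ (Fintype.card (C × Fin D × Fin N)) * Real.exp (-(τ ^ 2 * D * N / 4)) := by
  classical
  have hN' : (0 : ℝ) < N := by exact_mod_cast hN
  set m : ℝ := D * A.card * A'.card / N with hm
  have h1 := sum_exp (D := D) c A A' hN (l := τ / 2) (by positivity) (by linarith)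
  rw [← hm] at h1
  set S := univ.filter fun f : C × Fin D × Fin N → Fin N => (m + τ * D * N : ℝ) < Zc c A A' f
    with hS
  have h2 : (S.card : ℝ) * Real.exp (τ / 2 * (m + τ * D * N)) ≤
      ∑ f : C × Fin D × Fin N → Fin N, Real.exp (τ / 2 * Zc c A A' f) := by
    rw [← nsmul_eq_mul, ← Finset.sum_const]
    refine (Finset.sum_le_sum fun f hf => ?_).trans
      (Finset.sum_le_univ_sum_of_nonneg fun f => (Real.exp_pos _).le)
    rw [hS, mem_filter] at hf
    apply Real.exp_le_exp.2
    exact mul_le_mul_of_nonneg_left hf.2.le (by positivity)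
  have h3 := h2.trans h1
  have hmN : m ≤ D * N := by
    have hA : (A.card : ℝ) ≤ N := by
      have := card_le_univ A
      rw [Fintype.card_fin] at this
      exact_mod_cast this
    have hA' : (A'.card : ℝ) ≤ N := by
      have := card_le_univ A'
      rw [Fintype.card_fin] at this
      exact_mod_cast this
    rw [hm, div_le_iff₀ hN']
    have h5 : (0 : ℝ) ≤ D := by positivity
    have h6 : (A.card : ℝ) * A'.card ≤ N * N := by
      apply mul_le_mul hA hA' (by positivity) hN'.le
    nlinarith
  have h4 : (S.card : ℝ) ≤ (N : ℝ) ^ (Fintype.card (C × Fin D × Fin N)) *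
      (Real.exp ((τ / 2 + (τ / 2) ^ 2) * m) * Real.exp (-(τ / 2 * (m + τ * D * N)))) := by
    have h5 : Real.exp (τ / 2 * (m + τ * D * N)) * Real.exp (-(τ / 2 * (m + τ * D * N))) = 1 := by
      rw [← Real.exp_add, add_neg_cancel, Real.exp_zero]
    have h6 := mul_le_mul_of_nonneg_right h3 (Real.exp_pos (-(τ / 2 * (m + τ * D * N)))).le
    rw [mul_assoc, h5, mul_one, mul_assoc] at h6
    exact h6
  refine h4.trans (mul_le_mul_of_nonneg_left ?_ (by positivity))
  rw [← Real.exp_add]
  apply Real.exp_le_exp.2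
  nlinarith [sq_nonneg τ]

/-- The configurations: a set `X` of left vertices, a set `Y` of right vertices and a set `E` of
`|X| + |Y|` slots at `X`. -/
def Conf (g : ℕ) (p : Finset (Fin N) × Finset (Fin N) × Finset (C × Fin D × Fin N)) : Prop :=
  0 < p.1.card + p.2.1.card ∧ p.1.card + p.2.1.card ≤ g ∧
    p.2.2.card = p.1.card + p.2.1.card ∧ ∀ s ∈ p.2.2, s.2.2 ∈ p.1

/-- The configurations all whose slots are mapped into `Y`. -/
noncomputable def Bad (g : ℕ) (f : C × Fin D × Fin N → Fin N) :
    Finset (Finset (Fin N) × Finset (Fin N) × Finset (C × Fin D × Fin N)) := by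
  classical
  exact univ.filter fun p => Conf g p ∧ ∀ s ∈ p.2.2, f s ∈ p.2.1

theorem card_maps (Y : Finset (Fin N)) (E : Finset (C × Fin D × Fin N)) (hN : 0 < N) :
    ((univ.filter fun f : C × Fin D × Fin N → Fin N => ∀ s ∈ E, f s ∈ Y).card : ℝ) =
      (N : ℝ) ^ (Fintype.card (C × Fin D × Fin N)) * ((Y.card : ℝ) / N) ^ E.card := by
  classical
  have hN' : (N : ℝ) ≠ 0 := by exact_mod_cast hN.ne'
  have h1 : (univ.filter fun f : C × Fin D × Fin N → Fin N => ∀ s ∈ E, f s ∈ Y) =
      Fintype.piFinset fun s => if s ∈ E then Y else univ := by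
    ext f
    simp only [mem_filter, mem_univ, true_and, Fintype.mem_piFinset]
    constructor
    · intro h s
      split_ifs with hs
      · exact h s hs
      · exact mem_univ _
    · intro h s hs
      have := h s
      rwa [if_pos hs] at this
  rw [h1, Fintype.card_piFinset]
  push_cast
  have h2 : ∀ s : C × Fin D × Fin N, ((if s ∈ E then Y else univ : Finset (Fin N)).card : ℝ) =
      N * (if s ∈ E then (Y.card : ℝ) / N else 1) := by
    intro s
    split_ifs
    · field_simp
    · simp
  simp only [h2]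
  rw [Finset.prod_mul_distrib, Finset.prod_const, Finset.card_univ]
  congr 1
  rw [Finset.prod_ite_mem, Finset.univ_inter, Finset.prod_const]

theorem sum_inv_pow (g : ℕ) (hN : 0 < N) :
    ∑ X : Finset (Fin N), (if X.card ≤ g then ((1 : ℝ) / N) ^ X.card else 0) ≤ g + 1 := by
  classical
  have hN' : (0 : ℝ) < N := by exact_mod_cast hN
  have h0 : ∀ X : Finset (Fin N), (if X.card ≤ g then ((1 : ℝ) / N) ^ X.card else 0) =
      ∑ a ∈ range (g + 1), if X.card = a then ((1 : ℝ) / N) ^ a else 0 := by
    intro X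
    rw [Finset.sum_ite_eq]
    simp only [mem_range, Nat.lt_succ_iff]
  simp only [h0]
  rw [Finset.sum_comm]
  have h1 : ∀ a ∈ range (g + 1), ∑ X : Finset (Fin N), (if X.card = a then ((1 : ℝ) / N) ^ a
      else 0) ≤ 1 := by
    intro a _
    rw [← Finset.sum_filter, Finset.sum_const, nsmul_eq_mul]
    have h2 : (univ.filter fun X : Finset (Fin N) => X.card = a).card = N.choose a := by
      have := Fintype.card_finset_len (α := Fin N) a
      rw [Fintype.card_fin] at this
      rw [← this, Fintype.card_subtype]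
    rw [h2, one_div, inv_pow, ← div_eq_mul_inv, div_le_one (by positivity)]
    exact_mod_cast Nat.choose_le_pow N a
  refine (Finset.sum_le_sum h1).trans ?_
  simp

theorem sum_bad (g : ℕ) (hN : 0 < N) :
    ∑ f : C × Fin D × Fin N → Fin N, ((Bad g f).card : ℝ) ≤
      (N : ℝ) ^ (Fintype.card (C × Fin D × Fin N)) *
        (2 ^ (Fintype.card C * D * g) * (g + 1) ^ (g + 2)) := by
  classical
  have hN' : (0 : ℝ) < N := by exact_mod_cast hN
  set T : ℝ := (N : ℝ) ^ (Fintype.card (C × Fin D × Fin N)) with hT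
  have h1 : ∀ f : C × Fin D × Fin N → Fin N, ((Bad g f).card : ℝ) =
      ∑ p : Finset (Fin N) × Finset (Fin N) × Finset (C × Fin D × Fin N),
        if Conf g p ∧ ∀ s ∈ p.2.2, f s ∈ p.2.1 then (1 : ℝ) else 0 := by
    intro f
    unfold Bad
    rw [Finset.card_filter]
    push_cast
    refine Finset.sum_congr rfl fun p _ => ?_
    congr
  simp only [h1]
  rw [Finset.sum_comm]
  have h2 : ∀ p : Finset (Fin N) × Finset (Fin N) × Finset (C × Fin D × Fin N),
      (∑ f : C × Fin D × Fin N → Fin N,
        if Conf g p ∧ ∀ s ∈ p.2.2, f s ∈ p.2.1 then (1 : ℝ) else 0) ≤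
      if (∀ s ∈ p.2.2, s.2.2 ∈ p.1) then
        (if p.1.card ≤ g then ((1 : ℝ) / N) ^ p.1.card else 0) *
        (if p.2.1.card ≤ g then ((1 : ℝ) / N) ^ p.2.1.card else 0) *
        (if p.1.card ≤ g then T * (g + 1) ^ g else 0) else 0 := by
    intro p
    by_cases hp : Conf g p
    · simp only [hp, true_and]
      rw [if_pos hp.2.2.2]
      have h3 : (∑ f : C × Fin D × Fin N → Fin N, if (∀ s ∈ p.2.2, f s ∈ p.2.1) then (1 : ℝ)
          else 0) = T * ((p.2.1.card : ℝ) / N) ^ p.2.2.card := by
        rw [hT, ← card_maps p.2.1 p.2.2 hN, Finset.card_filter]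
        push_cast
        refine Finset.sum_congr rfl fun f _ => ?_
        congr
      rw [h3, hp.2.2.1]
      obtain ⟨_, hg, _, _⟩ := hp
      rw [if_pos (by omega), if_pos (by omega), if_pos (by omega)]
      have h4 : ((p.2.1.card : ℝ)) ^ (p.1.card + p.2.1.card) ≤ (g + 1) ^ g := by
        calc ((p.2.1.card : ℝ)) ^ (p.1.card + p.2.1.card)
            ≤ (g + 1) ^ (p.1.card + p.2.1.card) := by
              apply pow_le_pow_left₀ (by positivity)
              have : p.2.1.card ≤ g + 1 := by omega
              exact_mod_cast this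
          _ ≤ (g + 1) ^ g := by
              apply pow_le_pow_right₀ _ hg
              have : (0 : ℝ) ≤ g := by positivity
              linarith
      have h5 : ((p.2.1.card : ℝ) / N) ^ (p.1.card + p.2.1.card) =
          ((1 : ℝ) / N) ^ p.1.card * ((1 : ℝ) / N) ^ p.2.1.card *
            (p.2.1.card : ℝ) ^ (p.1.card + p.2.1.card) := by
        rw [← pow_add, ← mul_pow]
        congr 1
        ring
      rw [h5]
      have h6 : 0 ≤ ((1 : ℝ) / N) ^ p.1.card * ((1 : ℝ) / N) ^ p.2.1.card := by positivity
      have h7 : 0 ≤ T := by positivity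
      have h8 := mul_le_mul_of_nonneg_left h4 (mul_nonneg h6 h7)
      linarith
    · simp only [hp, false_and, if_false, Finset.sum_const_zero]
      have : 0 ≤ T := by positivity
      split_ifs <;> positivity
  refine (Finset.sum_le_sum fun p _ => h2 p).trans ?_
  rw [Fintype.sum_prod_type]
  simp only [Fintype.sum_prod_type]
  have h9 : ∀ X Y : Finset (Fin N), (∑ E : Finset (C × Fin D × Fin N),
      if (∀ s ∈ E, s.2.2 ∈ X) then
        (if X.card ≤ g then ((1 : ℝ) / N) ^ X.card else 0) *
        (if Y.card ≤ g then ((1 : ℝ) / N) ^ Y.card else 0) *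
        (if X.card ≤ g then T * (g + 1) ^ g else 0) else 0) ≤
      (if X.card ≤ g then ((1 : ℝ) / N) ^ X.card else 0) *
        (if Y.card ≤ g then ((1 : ℝ) / N) ^ Y.card else 0) *
        (T * (2 ^ (Fintype.card C * D * g) * (g + 1) ^ g)) := by
    intro X Y
    rw [← Finset.sum_filter, Finset.sum_const, nsmul_eq_mul]
    have h10 : (univ.filter fun E : Finset (C × Fin D × Fin N) => ∀ s ∈ E, s.2.2 ∈ X) =
        (univ.filter fun s : C × Fin D × Fin N => s.2.2 ∈ X).powerset := by
      ext E
      simp only [mem_filter, mem_univ, true_and, mem_powerset, Finset.subset_iff]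
    have h11 : (univ.filter fun s : C × Fin D × Fin N => s.2.2 ∈ X).card =
        Fintype.card C * D * X.card := by
      have : (univ.filter fun s : C × Fin D × Fin N => s.2.2 ∈ X) = univ ×ˢ (univ ×ˢ X) := by
        ext s
        simp
      rw [this, card_product, card_product, card_univ, card_univ, Fintype.card_fin]
      ring
    rw [h10, card_powerset, h11]
    by_cases hX : X.card ≤ g
    · simp only [hX, if_true]
      have h12 : ((2 ^ (Fintype.card C * D * X.card) : ℕ) : ℝ) ≤
          2 ^ (Fintype.card C * D * g) := by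
        push_cast
        apply pow_le_pow_right₀ (by norm_num)
        exact Nat.mul_le_mul_left _ hX
      have h13 : 0 ≤ ((1 : ℝ) / N) ^ X.card *
          (if Y.card ≤ g then ((1 : ℝ) / N) ^ Y.card else 0) * (T * (g + 1) ^ g) := by
        have : 0 ≤ T := by positivity
        split_ifs <;> positivity
      have h14 := mul_le_mul_of_nonneg_right h12 h13
      linarith
    · simp only [hX, if_false, zero_mul, mul_zero, le_refl]
  refine (Finset.sum_le_sum fun X _ => Finset.sum_le_sum fun Y _ => h9 X Y).trans ?_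
  simp only [← Finset.sum_mul]
  have h15 := sum_inv_pow (N := N) g hN
  have h16 : (∑ X : Finset (Fin N), ∑ Y : Finset (Fin N),
      (if X.card ≤ g then ((1 : ℝ) / N) ^ X.card else 0) *
        (if Y.card ≤ g then ((1 : ℝ) / N) ^ Y.card else 0)) ≤ (g + 1) * (g + 1) := by
    rw [← Finset.sum_mul_sum]
    apply mul_le_mul h15 h15
    · apply Finset.sum_nonneg
      intro Y _
      split_ifs <;> positivity
    · positivity
  have h17 : 0 ≤ T * (2 ^ (Fintype.card C * D * g) * ((g : ℝ) + 1) ^ g) := by positivity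
  refine (mul_le_mul_of_nonneg_right h16 h17).trans (le_of_eq ?_)
  ring

end Pool.Agent.H697.Exp
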