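import Pool.Agent.H697.Exp.Weights

/-!
# Fourier analysis on `ZMod n × ZMod n` and the spectral gap of the Margulis-Gabber-Galil graphs
-/

namespace Pool.Agent.H697.Exp

open Finset Complex

variable {n : ℕ} [NeZero n]

/-- The standard character. -/
noncomputable def chr (x : ZMod n) : ℂ := ZMod.stdAddChar x

theorem chr_add (x y : ZMod n) : chr (x + y) = chr x * chr y := by
  unfold chr; rw [AddChar.map_add_eq_mul]

theorem chr_zero : chr (0 : ZMod n) = 1 := by unfold chr; simp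

theorem norm_chr (x : ZMod n) : ‖chr x‖ = 1 := by
  unfold chr; rw [ZMod.stdAddChar_apply]; simp

theorem conj_chr (x : ZMod n) : (starRingEnd ℂ) (chr x) = chr (-x) := by
  have h : chr x * chr (-x) = 1 := by rw [← chr_add, add_neg_cancel, chr_zero]
  have h2 : chr x * (starRingEnd ℂ) (chr x) = 1 := by
    rw [Complex.mul_conj, Complex.normSq_eq_norm_sq, norm_chr]; norm_num
  have h3 : chr x ≠ 0 := by
    intro hc
    rw [hc] at h
    simp at h
  exact mul_left_cancel₀ h3 (h2.trans h.symm)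

theorem sum_chr (b : ZMod n) : ∑ x : ZMod n, chr (x * b) = if b = 0 then (n : ℂ) else 0 := by
  unfold chr
  rw [AddChar.sum_mulShift b (ZMod.isPrimitive_stdAddChar n), ZMod.card]
  split_ifs <;> simp

/-- Half of the absolute value of `1 + chr x`. -/
noncomputable def cs (x : ZMod n) : ℝ := ‖1 + chr x‖ / 2

theorem cs_nonneg (x : ZMod n) : 0 ≤ cs x := by unfold cs; positivity

theorem cs_le (x : ZMod n) : cs x ≤ 1 := by
  unfold cs
  have := norm_add_le (1 : ℂ) (chr x)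
  rw [norm_chr, norm_one] at this
  linarith

theorem cs_sq (x : ZMod n) : cs x ^ 2 = Real.cos (Real.pi * wt x / n) ^ 2 := by
  have h1 : chr x = Complex.exp (((2 * Real.pi * x.valMinAbs / n : ℝ) : ℂ) * I) := by
    have h := ZMod.stdAddChar_coe (N := n) x.valMinAbs
    rw [ZMod.coe_valMinAbs] at h
    unfold chr
    rw [h]
    congr 1
    push_cast
    ring
  have h2 : (x.valMinAbs : ℝ) ^ 2 = (wt x : ℝ) ^ 2 := by
    unfold wt
    rw [Nat.cast_natAbs, Int.cast_abs, sq_abs]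
  have h3 : Real.cos (Real.pi * x.valMinAbs / n) ^ 2 = Real.cos (Real.pi * wt x / n) ^ 2 := by
    rcases sq_eq_sq_iff_eq_or_eq_neg.1 h2 with h | h
    · rw [h]
    · rw [h]
      rw [show Real.pi * -(wt x : ℝ) / n = -(Real.pi * wt x / n) by ring, Real.cos_neg]
  rw [← h3]
  unfold cs
  rw [div_pow, ← Complex.normSq_eq_norm_sq, h1]
  rw [Complex.exp_mul_I, Complex.normSq_apply]
  simp only [← Complex.ofReal_cos, ← Complex.ofReal_sin, Complex.add_re, Complex.one_re,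
    Complex.ofReal_re, Complex.mul_re, Complex.I_re, Complex.I_im, Complex.ofReal_im,
    Complex.add_im, Complex.one_im, Complex.mul_im]
  have h4 : (2 * Real.pi * x.valMinAbs / n : ℝ) = 2 * (Real.pi * x.valMinAbs / n) := by ring
  rw [h4, Real.cos_two_mul, Real.sin_two_mul]
  have h5 := Real.sin_sq_add_cos_sq (Real.pi * x.valMinAbs / n)
  set c := Real.cos (Real.pi * x.valMinAbs / n)
  set s := Real.sin (Real.pi * x.valMinAbs / n)
  have h6 : s ^ 2 = 1 - c ^ 2 := by linarith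
  ring_nf
  rw [h6]
  ring

theorem cs_eq (x : ZMod n) : cs x = Real.cos (Real.pi * wt x / n) := by
  have hn : (0 : ℝ) < n := by exact_mod_cast NeZero.pos n
  have h1 : 2 * (wt x : ℝ) ≤ n := by exact_mod_cast two_wt_le x
  have h2 : 0 ≤ Real.cos (Real.pi * wt x / n) := by
    apply Real.cos_nonneg_of_neg_pi_div_two_le_of_le
    · have : 0 ≤ Real.pi * wt x / n := by positivity
      have := Real.pi_pos
      linarith
    · rw [div_le_iff₀ hn]
      have := Real.pi_pos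
      nlinarith
  have h3 := cs_sq x
  have h4 := cs_nonneg x
  exact (sq_eq_sq₀ h4 h2).1 h3

theorem cs_add {x y : ZMod n} (h : n ≤ 2 * (wt x + wt y)) : (cs x + cs y) ^ 2 ≤ 2 := by
  have hn : (0 : ℝ) < n := by exact_mod_cast NeZero.pos n
  have hx : 2 * (wt x : ℝ) ≤ n := by exact_mod_cast two_wt_le x
  have hy : 2 * (wt y : ℝ) ≤ n := by exact_mod_cast two_wt_le y
  have h' : (n : ℝ) ≤ 2 * (wt x + wt y) := by exact_mod_cast h
  have hpi := Real.pi_pos
  set α := Real.pi * wt x / n with hα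
  set β := Real.pi * wt y / n with hβ
  have hα0 : 0 ≤ α := by positivity
  have hβ0 : 0 ≤ β := by positivity
  have hβ1 : β ≤ Real.pi / 2 := by
    rw [hβ, div_le_iff₀ hn]; nlinarith
  have hα1 : α ≤ Real.pi / 2 := by
    rw [hα, div_le_iff₀ hn]; nlinarith
  have hab : Real.pi / 2 - α ≤ β := by
    have h1 : α + β = Real.pi * (wt x + wt y) / n := by rw [hα, hβ]; ring
    have h2 : Real.pi / 2 ≤ α + β := by
      rw [h1, le_div_iff₀ hn]; nlinarith
    linarith
  have h5 : Real.cos β ≤ Real.sin α := by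
    rw [← Real.cos_pi_div_two_sub]
    exact Real.cos_le_cos_of_nonneg_of_le_pi (by linarith) (by linarith) hab
  rw [cs_eq, cs_eq]
  have h6 : 0 ≤ Real.cos β := Real.cos_nonneg_of_neg_pi_div_two_le_of_le (by linarith) hβ1
  have h7 : 0 ≤ Real.cos α := Real.cos_nonneg_of_neg_pi_div_two_le_of_le (by linarith) hα1
  have h8 := Real.sin_sq_add_cos_sq α
  have h9 : Real.cos α + Real.cos β ≤ Real.cos α + Real.sin α := by linarith
  have h10 : (Real.cos α + Real.cos β) ^ 2 ≤ (Real.cos α + Real.sin α) ^ 2 := by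
    apply pow_le_pow_left₀ (by positivity) h9
  nlinarith [sq_nonneg (Real.cos α - Real.sin α)]

/-- The discrete Fourier transform. -/
noncomputable def ft (f : ZMod n × ZMod n → ℝ) (a : ZMod n × ZMod n) : ℂ :=
  ∑ z, (f z : ℂ) * chr (-(a.1 * z.1 + a.2 * z.2))

theorem sum_chr2 (c : ZMod n × ZMod n) :
    ∑ a : ZMod n × ZMod n, chr (a.1 * c.1 + a.2 * c.2) = if c = 0 then (n : ℂ) ^ 2 else 0 := by
  rw [Fintype.sum_prod_type]
  simp only [chr_add]
  rw [← Finset.sum_mul_sum, sum_chr, sum_chr]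
  by_cases h1 : c.1 = 0
  · by_cases h2 : c.2 = 0
    · have h3 : c = 0 := Prod.ext h1 h2
      rw [if_pos h1, if_pos h2, if_pos h3]; ring
    · have h3 : c ≠ 0 := fun hc => h2 (by rw [hc]; rfl)
      rw [if_neg h2, if_neg h3]; ring
  · have h3 : c ≠ 0 := fun hc => h1 (by rw [hc]; rfl)
    rw [if_neg h1, if_neg h3]; ring

theorem bilin (f g : ZMod n × ZMod n → ℝ) :
    ∑ a, (starRingEnd ℂ) (ft f a) * ft g a = (n : ℂ) ^ 2 * ((∑ z, f z * g z : ℝ) : ℂ) := by
  have h1 : ∀ a : ZMod n × ZMod n, (starRingEnd ℂ) (ft f a) * ft g a =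
      ∑ z, ∑ w, ((f z : ℂ) * g w) * chr (a.1 * (z - w).1 + a.2 * (z - w).2) := by
    intro a
    unfold ft
    rw [map_sum, Finset.sum_mul_sum]
    refine Finset.sum_congr rfl fun z _ => Finset.sum_congr rfl fun w _ => ?_
    rw [map_mul, conj_chr, Complex.conj_ofReal]
    have : a.1 * (z - w).1 + a.2 * (z - w).2 =
        - -(a.1 * z.1 + a.2 * z.2) + -(a.1 * w.1 + a.2 * w.2) := by
      simp only [Prod.fst_sub, Prod.snd_sub]; ring
    rw [this, chr_add]
    ring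
  simp only [h1]
  rw [Finset.sum_comm]
  rw [Complex.ofReal_sum, Finset.mul_sum]
  refine Finset.sum_congr rfl fun z _ => ?_
  rw [Finset.sum_comm]
  rw [Finset.sum_eq_single z]
  · rw [← Finset.mul_sum, sum_chr2, if_pos (sub_self z)]
    push_cast
    ring
  · intro w _ hw
    rw [← Finset.mul_sum, sum_chr2, if_neg (sub_ne_zero.2 hw.symm), mul_zero]
  · intro h
    exact absurd (Finset.mem_univ z) h

/-- First shear. -/
def T1 (z : ZMod n × ZMod n) : ZMod n × ZMod n := (z.1 + 2 * z.2, z.2)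

/-- Second shear. -/
def T2 (z : ZMod n × ZMod n) : ZMod n × ZMod n := (z.1, z.2 + 2 * z.1)

/-- First shear as a permutation. -/
def E1 (c : ZMod n) : (ZMod n × ZMod n) ≃ (ZMod n × ZMod n) where
  toFun z := (z.1 + 2 * z.2 + c, z.2)
  invFun z := (z.1 - 2 * z.2 - c, z.2)
  left_inv z := by ext <;> (simp; try ring)
  right_inv z := by ext <;> (simp; try ring)

/-- Second shear as a permutation. -/
def E2 (c : ZMod n) : (ZMod n × ZMod n) ≃ (ZMod n × ZMod n) where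
  toFun z := (z.1, z.2 + 2 * z.1 + c)
  invFun z := (z.1, z.2 - 2 * z.1 - c)
  left_inv z := by ext <;> (simp; try ring)
  right_inv z := by ext <;> (simp; try ring)

theorem ft_E1 (f : ZMod n × ZMod n → ℝ) (c : ZMod n) (a : ZMod n × ZMod n) :
    ft (fun z => f (E1 c z)) a = chr (a.1 * c) * ft f (a.1, a.2 - 2 * a.1) := by
  unfold ft
  rw [Finset.mul_sum]
  refine Fintype.sum_equiv (E1 c) _ _ fun z => ?_
  have : -(a.1 * z.1 + a.2 * z.2) = a.1 * c +
      -((a.1, a.2 - 2 * a.1).1 * (E1 c z).1 + (a.1, a.2 - 2 * a.1).2 * (E1 c z).2) := by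
    simp only [E1, Equiv.coe_fn_mk]; ring
  rw [this, chr_add]
  ring

theorem ft_E2 (f : ZMod n × ZMod n → ℝ) (c : ZMod n) (a : ZMod n × ZMod n) :
    ft (fun z => f (E2 c z)) a = chr (a.2 * c) * ft f (a.1 - 2 * a.2, a.2) := by
  unfold ft
  rw [Finset.mul_sum]
  refine Fintype.sum_equiv (E2 c) _ _ fun z => ?_
  have : -(a.1 * z.1 + a.2 * z.2) = a.2 * c +
      -((a.1 - 2 * a.2, a.2).1 * (E2 c z).1 + (a.1 - 2 * a.2, a.2).2 * (E2 c z).2) := by
    simp only [E2, Equiv.coe_fn_mk]; ring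
  rw [this, chr_add]
  ring

/-- The quadratic form. -/
noncomputable def Qf (f : ZMod n × ZMod n → ℝ) : ℝ :=
  ∑ z, f z * (f (E1 0 z) + f (E1 1 z) + f (E2 0 z) + f (E2 1 z))

theorem Qf_eq (f : ZMod n × ZMod n → ℝ) : (n : ℂ) ^ 2 * (Qf f : ℂ) =
    ∑ a : ZMod n × ZMod n, (starRingEnd ℂ) (ft f a) *
      ((1 + chr a.1) * ft f (a.1, a.2 - 2 * a.1) + (1 + chr a.2) * ft f (a.1 - 2 * a.2, a.2)) := by
  have h : Qf f = ∑ z, f z * f (E1 0 z) + ∑ z, f z * f (E1 1 z) + ∑ z, f z * f (E2 0 z) +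
      ∑ z, f z * f (E2 1 z) := by
    unfold Qf
    rw [← Finset.sum_add_distrib, ← Finset.sum_add_distrib, ← Finset.sum_add_distrib]
    exact Finset.sum_congr rfl fun z _ => by ring
  rw [h, Complex.ofReal_add, Complex.ofReal_add, Complex.ofReal_add, mul_add, mul_add, mul_add,
    ← bilin, ← bilin, ← bilin, ← bilin, ← Finset.sum_add_distrib, ← Finset.sum_add_distrib,
    ← Finset.sum_add_distrib]
  refine Finset.sum_congr rfl fun a _ => ?_
  rw [ft_E1, ft_E1, ft_E2, ft_E2, mul_zero, mul_zero, mul_one, mul_one, chr_zero]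
  ring

theorem sum_ft_sq (f : ZMod n × ZMod n → ℝ) : ∑ a, ‖ft f a‖ ^ 2 = (n : ℝ) ^ 2 * ∑ z, f z ^ 2 := by
  have h := bilin f f
  have h1 : ∀ a : ZMod n × ZMod n, (starRingEnd ℂ) (ft f a) * ft f a = ((‖ft f a‖ ^ 2 : ℝ) : ℂ) := by
    intro a
    rw [mul_comm, Complex.mul_conj, Complex.normSq_eq_norm_sq]
  simp only [h1] at h
  have h2 : ((∑ a, ‖ft f a‖ ^ 2 : ℝ) : ℂ) = (((n : ℝ) ^ 2 * ∑ z, f z * f z : ℝ) : ℂ) := by
    rw [Complex.ofReal_sum, h]
    push_cast
    ring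
  have h3 := Complex.ofReal_injective h2
  rw [h3]
  simp only [sq]

theorem ft_zero {f : ZMod n × ZMod n → ℝ} (hf : ∑ z, f z = 0) : ft f 0 = 0 := by
  unfold ft
  have : ∀ z : ZMod n × ZMod n, (f z : ℂ) * chr (-((0 : ZMod n × ZMod n).1 * z.1 +
      (0 : ZMod n × ZMod n).2 * z.2)) = (f z : ℂ) := by
    intro z
    simp [chr_zero]
  simp only [this]
  rw [← Complex.ofReal_sum, hf]
  simp

theorem wsum (G : ZMod n × ZMod n → ℝ) (h0 : G 0 = 0) :
    ∑ a : ZMod n × ZMod n, (cs a.1 * (2 * (G a * G (a.1, a.2 - 2 * a.1))) +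
      cs a.2 * (2 * (G a * G (a.1 - 2 * a.2, a.2)))) ≤ 73 / 20 * ∑ a, G a ^ 2 := by
  have e1 : ∑ a : ZMod n × ZMod n, cs a.1 * (2 * (G a * G (a.1, a.2 - 2 * a.1))) ≤
      ∑ a : ZMod n × ZMod n, cs a.1 * gsum a.1 a.2 * G a ^ 2 := by
    have h1 : ∀ a ∈ (Finset.univ : Finset (ZMod n × ZMod n)),
        cs a.1 * (2 * (G a * G (a.1, a.2 - 2 * a.1))) ≤
        cs a.1 * gam (wt a.2) (wt (a.2 - 2 * a.1)) * G a ^ 2 +
        cs a.1 * gam (wt (a.2 - 2 * a.1)) (wt a.2) * G (a.1, a.2 - 2 * a.1) ^ 2 := by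
      intro a _
      have := mul_le_mul_of_nonneg_left
        (amgm (wt a.2) (wt (a.2 - 2 * a.1)) (G a) (G (a.1, a.2 - 2 * a.1))) (cs_nonneg a.1)
      linarith
    refine (Finset.sum_le_sum h1).trans ?_
    rw [Finset.sum_add_distrib]
    have h2 : ∑ a : ZMod n × ZMod n,
        cs a.1 * gam (wt (a.2 - 2 * a.1)) (wt a.2) * G (a.1, a.2 - 2 * a.1) ^ 2 =
        ∑ a : ZMod n × ZMod n, cs a.1 * gam (wt a.2) (wt (a.2 + 2 * a.1)) * G a ^ 2 := by
      refine Fintype.sum_equiv (E2 0).symm _ _ fun a => ?_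
      simp only [E2, Equiv.coe_fn_symm_mk, sub_zero, sub_add_cancel]
    rw [h2, ← Finset.sum_add_distrib]
    refine le_of_eq (Finset.sum_congr rfl fun a _ => ?_)
    unfold gsum
    ring
  have e2 : ∑ a : ZMod n × ZMod n, cs a.2 * (2 * (G a * G (a.1 - 2 * a.2, a.2))) ≤
      ∑ a : ZMod n × ZMod n, cs a.2 * gsum a.2 a.1 * G a ^ 2 := by
    have h1 : ∀ a ∈ (Finset.univ : Finset (ZMod n × ZMod n)),
        cs a.2 * (2 * (G a * G (a.1 - 2 * a.2, a.2))) ≤
        cs a.2 * gam (wt a.1) (wt (a.1 - 2 * a.2)) * G a ^ 2 +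
        cs a.2 * gam (wt (a.1 - 2 * a.2)) (wt a.1) * G (a.1 - 2 * a.2, a.2) ^ 2 := by
      intro a _
      have := mul_le_mul_of_nonneg_left
        (amgm (wt a.1) (wt (a.1 - 2 * a.2)) (G a) (G (a.1 - 2 * a.2, a.2))) (cs_nonneg a.2)
      linarith
    refine (Finset.sum_le_sum h1).trans ?_
    rw [Finset.sum_add_distrib]
    have h2 : ∑ a : ZMod n × ZMod n,
        cs a.2 * gam (wt (a.1 - 2 * a.2)) (wt a.1) * G (a.1 - 2 * a.2, a.2) ^ 2 =
        ∑ a : ZMod n × ZMod n, cs a.2 * gam (wt a.1) (wt (a.1 + 2 * a.2)) * G a ^ 2 := by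
      refine Fintype.sum_equiv (E1 0).symm _ _ fun a => ?_
      simp only [E1, Equiv.coe_fn_symm_mk, sub_zero, sub_add_cancel]
    rw [h2, ← Finset.sum_add_distrib]
    refine le_of_eq (Finset.sum_congr rfl fun a _ => ?_)
    unfold gsum
    ring
  rw [Finset.sum_add_distrib]
  refine (add_le_add e1 e2).trans ?_
  rw [← Finset.sum_add_distrib, Finset.mul_sum]
  refine Finset.sum_le_sum fun a _ => ?_
  by_cases ha : a = 0
  · rw [ha, h0]; simp
  · have ha' : a.1 ≠ 0 ∨ a.2 ≠ 0 := by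
      by_contra hcon
      push Not at hcon
      exact ha (Prod.ext hcon.1 hcon.2)
    have := point ha' (cs_nonneg a.1) (cs_nonneg a.2) (cs_le _) (cs_le _) cs_add
    have h2 := mul_le_mul_of_nonneg_right this (sq_nonneg (G a))
    linarith

theorem Qf_le {f : ZMod n × ZMod n → ℝ} (hf : ∑ z, f z = 0) :
    |Qf f| ≤ 73 / 20 * ∑ z, f z ^ 2 := by
  have hn : (0 : ℝ) < n := by exact_mod_cast NeZero.pos n
  have h1 : (n : ℝ) ^ 2 * |Qf f| = ‖(n : ℂ) ^ 2 * (Qf f : ℂ)‖ := by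
    rw [norm_mul, norm_pow, Complex.norm_natCast, Complex.norm_real, Real.norm_eq_abs]
  have h2 : ‖(n : ℂ) ^ 2 * (Qf f : ℂ)‖ ≤ 73 / 20 * ∑ a, ‖ft f a‖ ^ 2 := by
    rw [Qf_eq]
    refine (norm_sum_le _ _).trans (le_trans (Finset.sum_le_sum fun a _ => ?_)
      (wsum (fun a => ‖ft f a‖) (by simp only [ft_zero hf, norm_zero])))
    rw [mul_add]
    refine (norm_add_le _ _).trans (le_of_eq ?_)
    rw [norm_mul, norm_mul, norm_mul, norm_mul, RCLike.norm_conj]
    unfold cs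
    ring
  rw [sum_ft_sq] at h2
  rw [← h1] at h2
  have h3 : (n : ℝ) ^ 2 * |Qf f| ≤ (n : ℝ) ^ 2 * (73 / 20 * ∑ z, f z ^ 2) := by linarith
  exact le_of_mul_le_mul_left h3 (by positivity)

end Pool.Agent.H697.Exp
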