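import Pool.Agent.H697.Exp.Count
import Pool.Agent.H697.Forest.Bip

/-!
# Gadgets: edge-coloured bipartite graphs of large girth with well distributed colour classes
-/

namespace Pool.Agent.H697.Exp

open Finset Pool.Agent.H697.Forest

variable {C : Type} [Fintype C] [DecidableEq C]

theorem exists_good (g : ℕ) {τ : ℝ} (hτ : 0 < τ) (hτ1 : τ ≤ 1) (ν : ℕ → ℕ) :
    ∃ D N : ℕ, 0 < D ∧ 0 < N ∧ ν D ≤ N ∧ ∃ f : C × Fin D × Fin N → Fin N,
      (∀ (c : C) (A A' : Finset (Fin N)),
        (Zc c A A' f : ℝ) ≤ D * A.card * A'.card / N + τ * D * N) ∧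
      ((Bad g f).card : ℝ) ≤ τ * D * N := by
  classical
  set k : ℝ := (Fintype.card C : ℝ) with hk
  have hk0 : 0 ≤ k := by positivity
  obtain ⟨D, hD⟩ := exists_nat_ge (4 / τ ^ 2 * Real.log (16 * (k + 1)) + 1)
  have hlog : 0 ≤ Real.log (16 * (k + 1)) := Real.log_nonneg (by linarith)
  have hD1 : (1 : ℝ) ≤ D := by
    have : 0 ≤ 4 / τ ^ 2 * Real.log (16 * (k + 1)) := by positivity
    linarith
  have hD0 : 0 < D := by
    have : (0 : ℝ) < D := by linarith
    exact_mod_cast this
  have hexp : Real.exp (-(τ ^ 2 * D / 4)) ≤ 1 / (16 * (k + 1)) := by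
    have h1 : Real.log (16 * (k + 1)) ≤ τ ^ 2 * D / 4 := by
      have h2 : 4 / τ ^ 2 * Real.log (16 * (k + 1)) ≤ D := by linarith
      have h3 := mul_le_mul_of_nonneg_left h2 (by positivity : 0 ≤ τ ^ 2 / 4)
      have h4 : τ ^ 2 / 4 * (4 / τ ^ 2 * Real.log (16 * (k + 1))) = Real.log (16 * (k + 1)) := by
        field_simp
      rw [h4] at h3
      linarith
    rw [Real.exp_neg, ← one_div]
    apply one_div_le_one_div_of_le (by positivity)
    rw [← Real.log_le_iff_le_exp (by positivity)]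
    exact h1
  set K : ℝ := 2 ^ (Fintype.card C * D * g) * (g + 1) ^ (g + 2) with hK
  have hKpos : 0 < K := by positivity
  obtain ⟨N, hN'⟩ := exists_nat_ge (2 * K / τ + 1 + ν D)
  have hN : 2 * K / τ + 1 ≤ N := by
    have : (0 : ℝ) ≤ ν D := by positivity
    linarith
  have hνN : ν D ≤ N := by
    have h1 : 0 ≤ 2 * K / τ := by positivity
    have h2 : (ν D : ℝ) ≤ N := by linarith
    exact_mod_cast h2
  have hN1 : (1 : ℝ) ≤ N := by
    have : 0 ≤ 2 * K / τ := by positivity
    linarith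
  have hN0 : 0 < N := by
    have : (0 : ℝ) < N := by linarith
    exact_mod_cast this
  have hKN : 2 * K ≤ τ * D * N := by
    have h1 : 2 * K / τ ≤ N := by linarith
    rw [div_le_iff₀ hτ] at h1
    have h2 : (N : ℝ) * τ ≤ (N : ℝ) * τ * D := le_mul_of_one_le_right (by positivity) hD1
    linarith
  refine ⟨D, N, hD0, hN0, hνN, ?_⟩
  set T : ℝ := (N : ℝ) ^ (Fintype.card (C × Fin D × Fin N)) with hT
  have hTpos : 0 < T := by positivity
  set cost : (C × Fin D × Fin N → Fin N) → ℝ := fun f =>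
    (∑ p : C × Finset (Fin N) × Finset (Fin N),
      if (D * p.2.1.card * p.2.2.card / N + τ * D * N : ℝ) < Zc p.1 p.2.1 p.2.2 f then (1 : ℝ)
      else 0) + ((Bad g f).card : ℝ) / (2 * K) with hcost
  have hsum : ∑ f, cost f < ∑ _f : C × Fin D × Fin N → Fin N, (1 : ℝ) := by
    have h0 : (∑ _f : C × Fin D × Fin N → Fin N, (1 : ℝ)) = T := by
      rw [Finset.sum_const, Finset.card_univ, Fintype.card_fun, Fintype.card_fin, nsmul_eq_mul,
        mul_one, hT]
      push_cast
      rfl
    rw [h0, hcost, Finset.sum_add_distrib, ← Finset.sum_div]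
    have h1 : (∑ f : C × Fin D × Fin N → Fin N, ((Bad g f).card : ℝ)) / (2 * K) ≤ T / 2 := by
      rw [div_le_div_iff₀ (by positivity) (by norm_num)]
      have := sum_bad (C := C) (D := D) (N := N) g hN0
      rw [← hT, ← hK] at this
      linarith
    have h2 : ∑ f : C × Fin D × Fin N → Fin N, (∑ p : C × Finset (Fin N) × Finset (Fin N),
        if (D * p.2.1.card * p.2.2.card / N + τ * D * N : ℝ) < Zc p.1 p.2.1 p.2.2 f then (1 : ℝ)
        else 0) ≤ T / 4 := by
      rw [Finset.sum_comm]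
      have h3 : ∀ p : C × Finset (Fin N) × Finset (Fin N),
          (∑ f : C × Fin D × Fin N → Fin N,
          if (D * p.2.1.card * p.2.2.card / N + τ * D * N : ℝ) < Zc p.1 p.2.1 p.2.2 f
          then (1 : ℝ) else 0) ≤ T * Real.exp (-(τ ^ 2 * D * N / 4)) := by
        intro p
        have h4 := disc_count (D := D) p.1 p.2.1 p.2.2 hN0 hτ hτ1
        rw [Finset.card_filter] at h4
        push_cast at h4
        rw [← hT] at h4
        exact h4
      refine (Finset.sum_le_sum fun p _ => h3 p).trans ?_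
      rw [Finset.sum_const, Finset.card_univ, Fintype.card_prod, Fintype.card_prod,
        Fintype.card_finset, Fintype.card_fin, nsmul_eq_mul]
      push_cast
      rw [← hk]
      have h5 : Real.exp (-(τ ^ 2 * D * N / 4)) = Real.exp (-(τ ^ 2 * D / 4)) ^ N := by
        rw [← Real.exp_nat_mul]
        congr 1
        ring
      rw [h5]
      have h6 : Real.exp (-(τ ^ 2 * D / 4)) ^ N ≤ (1 / (16 * (k + 1))) ^ N :=
        pow_le_pow_left₀ (Real.exp_pos _).le hexp N
      have h7 : k * (2 ^ N * 2 ^ N) * (1 / (16 * (k + 1))) ^ N ≤ 1 / 4 := by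
        have h8 : k ≤ (k + 1) ^ N := by
          calc k ≤ (k + 1) ^ 1 := by linarith
            _ ≤ (k + 1) ^ N := pow_le_pow_right₀ (by linarith) hN0
        have h9 : (2 : ℝ) ^ N * 2 ^ N * 4 ≤ 16 ^ N := by
          have h10 : (4 : ℝ) ≤ 4 ^ N := by
            calc (4 : ℝ) = 4 ^ 1 := by norm_num
              _ ≤ 4 ^ N := pow_le_pow_right₀ (by norm_num) hN0
          have h11 : (2 : ℝ) ^ N * 2 ^ N = 4 ^ N := by rw [← mul_pow]; norm_num
          have h12 : (16 : ℝ) ^ N = 4 ^ N * 4 ^ N := by rw [← mul_pow]; norm_num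
          rw [h11, h12]
          exact mul_le_mul_of_nonneg_left h10 (by positivity)
        rw [div_pow, one_pow, mul_one_div, div_le_div_iff₀ (by positivity) (by norm_num), one_mul,
          mul_pow]
        calc k * (2 ^ N * 2 ^ N) * 4 = k * (2 ^ N * 2 ^ N * 4) := by ring
          _ ≤ (k + 1) ^ N * 16 ^ N := mul_le_mul h8 h9 (by positivity) (by positivity)
          _ = 16 ^ N * (k + 1) ^ N := by ring
      have h13 : 0 ≤ k * (2 ^ N * 2 ^ N) := by positivity
      calc k * (2 ^ N * 2 ^ N) * (T * Real.exp (-(τ ^ 2 * D / 4)) ^ N)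
          = T * (k * (2 ^ N * 2 ^ N) * Real.exp (-(τ ^ 2 * D / 4)) ^ N) := by ring
        _ ≤ T * (k * (2 ^ N * 2 ^ N) * (1 / (16 * (k + 1))) ^ N) := by
            apply mul_le_mul_of_nonneg_left _ hTpos.le
            exact mul_le_mul_of_nonneg_left h6 h13
        _ ≤ T * (1 / 4) := mul_le_mul_of_nonneg_left h7 hTpos.le
        _ = T / 4 := by ring
    linarith
  obtain ⟨f, _, hf⟩ := Finset.exists_lt_of_sum_lt hsum
  refine ⟨f, ?_, ?_⟩
  · intro c A A'
    by_contra hcon
    push Not at hcon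
    have h1 : (1 : ℝ) ≤ ∑ p : C × Finset (Fin N) × Finset (Fin N),
        if (D * p.2.1.card * p.2.2.card / N + τ * D * N : ℝ) < Zc p.1 p.2.1 p.2.2 f then (1 : ℝ)
        else 0 := by
      have h2 := Finset.single_le_sum (s := univ)
        (f := fun p : C × Finset (Fin N) × Finset (Fin N) =>
        if (D * p.2.1.card * p.2.2.card / N + τ * D * N : ℝ) < Zc p.1 p.2.1 p.2.2 f then (1 : ℝ)
        else 0) (fun p _ => by split_ifs <;> norm_num) (mem_univ (c, A, A'))
      dsimp only at h2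
      rw [if_pos hcon] at h2
      exact h2
    have h3 : (0 : ℝ) ≤ ((Bad g f).card : ℝ) / (2 * K) := by positivity
    simp only [hcost] at hf
    linarith
  · have h1 : (0 : ℝ) ≤ ∑ p : C × Finset (Fin N) × Finset (Fin N),
        if (D * p.2.1.card * p.2.2.card / N + τ * D * N : ℝ) < Zc p.1 p.2.1 p.2.2 f then (1 : ℝ)
        else 0 := Finset.sum_nonneg fun p _ => by split_ifs <;> norm_num
    simp only [hcost] at hf
    have h2 : ((Bad g f).card : ℝ) / (2 * K) < 1 := by linarith
    rw [div_lt_one (by positivity)] at h2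
    linarith

/-- A gadget. -/
structure Gadget (C : Type) [Fintype C] (g : ℕ) (τ : ℝ) (D N : ℕ) (B : C → Finset (ℕ × ℕ)) :
    Prop where
  posD : 0 < D
  posN : 0 < N
  lt : ∀ c, ∀ p ∈ B c, p.1 < N ∧ p.2 < N
  disj : ∀ c c' p, p ∈ B c → p ∈ B c' → c = c'
  left : ∀ c x, ((B c).filter fun p => p.1 = x).card ≤ D
  right : ∀ c y, 4 * ((B c).filter fun p => p.2 = y).card ≤ 5 * D
  card : ∀ c, (1 - 6 * τ) * D * N ≤ (B c).card
  disc : ∀ c, ∀ A ⊆ range N, ∀ A' ⊆ range N,
    (((B c).filter fun p => p.1 ∈ A ∧ p.2 ∈ A').card : ℝ) ≤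
      D * A.card * A'.card / N + τ * D * N
  sparse : ∀ X Y : Finset ℕ, 0 < X.card + Y.card → X.card + Y.card ≤ g →
    ((univ.biUnion B).filter fun p => p.1 ∈ X ∧ p.2 ∈ Y).card < X.card + Y.card

theorem exists_gadget' [Nonempty C] (g : ℕ) (hg : 2 ≤ g) {τ : ℝ} (hτ : 0 < τ) (hτ1 : τ ≤ 1)
    (ν : ℕ → ℕ) :
    ∃ D N : ℕ, ν D ≤ N ∧ ∃ B : C → Finset (ℕ × ℕ), Gadget C g τ D N B := by
  classical
  obtain ⟨D, N, hD, hN, hνN, f, hdisc, hbad⟩ := exists_good (C := C) g hτ hτ1 ν
  have hN' : (0 : ℝ) < N := by exact_mod_cast hN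
  have hD' : (0 : ℝ) < D := by exact_mod_cast hD
  have : Nonempty (C × Fin D × Fin N) := ⟨(Classical.arbitrary C, ⟨0, hD⟩, ⟨0, hN⟩)⟩
  -- choose a slot of every bad configuration
  have hch : ∀ p : Finset (Fin N) × Finset (Fin N) × Finset (C × Fin D × Fin N),
      ∃ s : C × Fin D × Fin N, p ∈ Bad g f → s ∈ p.2.2 := by
    intro p
    by_cases hp : p ∈ Bad g f
    · have h1 : Conf g p := by
        unfold Bad at hp
        exact (mem_filter.1 hp).2.1
      have h2 : 0 < p.2.2.card := by rw [h1.2.2.1]; exact h1.1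
      obtain ⟨s, hs⟩ := card_pos.1 h2
      exact ⟨s, fun _ => hs⟩
    · exact ⟨Classical.arbitrary _, fun h => absurd h hp⟩
  choose ch hch using hch
  set Del : Finset (C × Fin D × Fin N) := (Bad g f).image ch with hDel
  have hDelcard : (Del.card : ℝ) ≤ τ * D * N := by
    refine le_trans ?_ hbad
    exact_mod_cast card_image_le
  have hsp : ∀ (X Y : Finset (Fin N)) (E : Finset (C × Fin D × Fin N)),
      Conf g (X, Y, E) → (∀ s ∈ E, f s ∈ Y) → ∃ s ∈ E, s ∈ Del := by
    intro X Y E hE hEY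
    have h1 : (X, Y, E) ∈ Bad g f := by
      unfold Bad
      exact mem_filter.2 ⟨mem_univ _, hE, hEY⟩
    exact ⟨ch (X, Y, E), hch _ h1, mem_image_of_mem ch h1⟩
  have hinj : ∀ s s' : C × Fin D × Fin N, s ∉ Del → s' ∉ Del → s.2.2 = s'.2.2 → f s = f s' →
      s = s' := by
    intro s s' hs hs' hx hy
    by_contra hne
    obtain ⟨r, hr, hrD⟩ := hsp {s.2.2} {f s} {s, s'} (by
      refine ⟨by simp, by simp only [card_singleton]; omega, ?_, ?_⟩
      · dsimp only
        rw [card_pair hne, card_singleton, card_singleton]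
      · intro r hr
        dsimp only at hr ⊢
        rw [mem_insert, mem_singleton] at hr
        rw [mem_singleton]
        rcases hr with rfl | rfl
        · rfl
        · exact hx.symm) (by
      intro r hr
      rw [mem_insert, mem_singleton] at hr
      rw [mem_singleton]
      rcases hr with rfl | rfl
      · rfl
      · exact hy.symm)
    rw [mem_insert, mem_singleton] at hr
    rcases hr with rfl | rfl
    · exact hs hrD
    · exact hs' hrD
  set High : C → Finset (Fin N) := fun c => univ.filter fun y =>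
    5 * D < 4 * (univ.filter fun s : C × Fin D × Fin N => s.1 = c ∧ f s = y).card with hHigh
  set Kept : C → Finset (C × Fin D × Fin N) := fun c => univ.filter fun s =>
    s.1 = c ∧ s ∉ Del ∧ f s ∉ High c with hKept
  set B : C → Finset (ℕ × ℕ) := fun c => (Kept c).image fun s => ((s.2.2 : ℕ), (f s : ℕ)) with hB
  have hmemB : ∀ c p, p ∈ B c → ∃ s : C × Fin D × Fin N, s.1 = c ∧ s ∉ Del ∧ f s ∉ High c ∧
      (s.2.2 : ℕ) = p.1 ∧ (f s : ℕ) = p.2 := by
    intro c p hp
    rw [hB] at hp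
    obtain ⟨s, hs, rfl⟩ := mem_image.1 hp
    rw [hKept] at hs
    obtain ⟨_, h1, h2, h3⟩ := mem_filter.1 hs
    exact ⟨s, h1, h2, h3, rfl, rfl⟩
  refine ⟨D, N, hνN, B, hD, hN, ?_, ?_, ?_, ?_, ?_, ?_, ?_⟩
  · intro c p hp
    obtain ⟨s, _, _, _, h1, h2⟩ := hmemB c p hp
    rw [← h1, ← h2]
    exact ⟨s.2.2.2, (f s).2⟩
  · intro c c' p hp hp'
    obtain ⟨s, h1, h2, _, h3, h4⟩ := hmemB c p hp
    obtain ⟨s', h1', h2', _, h3', h4'⟩ := hmemB c' p hp'
    have := hinj s s' h2 h2' (Fin.ext (h3.trans h3'.symm)) (Fin.ext (h4.trans h4'.symm))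
    rw [← h1, ← h1', this]
  · intro c x
    by_cases hx : x < N
    · have h1 : ((B c).filter fun p => p.1 = x) ⊆
          (univ.filter fun s : C × Fin D × Fin N => s.1 = c ∧ s.2.2 ∈ ({⟨x, hx⟩} : Finset (Fin N))).image
            fun s => ((s.2.2 : ℕ), (f s : ℕ)) := by
        intro p hp
        obtain ⟨hp1, hp2⟩ := mem_filter.1 hp
        obtain ⟨s, h1, _, _, h3, h4⟩ := hmemB c p hp1
        refine mem_image.2 ⟨s, mem_filter.2 ⟨mem_univ _, h1, ?_⟩, Prod.ext h3 h4⟩
        rw [mem_singleton]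
        exact Fin.ext (h3.trans hp2)
      refine (card_le_card h1).trans (card_image_le.trans ?_)
      rw [card_slots]
      simp
    · have h1 : ((B c).filter fun p => p.1 = x) = ∅ := by
        rw [filter_eq_empty_iff]
        intro p hp hpx
        obtain ⟨s, _, _, _, h3, _⟩ := hmemB c p hp
        have := s.2.2.2
        omega
      rw [h1]
      simp
  · intro c y
    by_cases hne : ((B c).filter fun p => p.2 = y).Nonempty
    · obtain ⟨p, hp⟩ := hne
      obtain ⟨hp1, hp2⟩ := mem_filter.1 hp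
      obtain ⟨s, h1, _, h2, h3, h4⟩ := hmemB c p hp1
      have h5 : 4 * (univ.filter fun r : C × Fin D × Fin N => r.1 = c ∧ f r = f s).card ≤ 5 * D := by
        rw [hHigh] at h2
        by_contra hcon
        exact h2 (mem_filter.2 ⟨mem_univ _, by omega⟩)
      refine le_trans (Nat.mul_le_mul_left 4 ?_) h5
      have h6 : ((B c).filter fun p => p.2 = y) ⊆
          (univ.filter fun r : C × Fin D × Fin N => r.1 = c ∧ f r = f s).image
            fun s => ((s.2.2 : ℕ), (f s : ℕ)) := by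
        intro p' hp'
        obtain ⟨hp1', hp2'⟩ := mem_filter.1 hp'
        obtain ⟨s', h1', _, _, h3', h4'⟩ := hmemB c p' hp1'
        refine mem_image.2 ⟨s', mem_filter.2 ⟨mem_univ _, h1', ?_⟩, Prod.ext h3' h4'⟩
        apply Fin.ext
        rw [h4', h4, hp2, hp2']
      exact (card_le_card h6).trans card_image_le
    · rw [not_nonempty_iff_eq_empty] at hne
      rw [hne]
      simp
  · intro c
    have h1 : (B c).card = (Kept c).card := by
      rw [hB]
      apply card_image_of_injOn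
      intro s hs s' hs' heq
      rw [mem_coe, hKept] at hs hs'
      obtain ⟨_, _, h2, _⟩ := mem_filter.1 hs
      obtain ⟨_, _, h2', _⟩ := mem_filter.1 hs'
      have heq' := Prod.mk.inj heq
      exact hinj s s' h2 h2' (Fin.ext heq'.1) (Fin.ext heq'.2)
    have h2 : D * N ≤ (Kept c).card + Del.card + Zc c univ (High c) f := by
      have h3 : (univ.filter fun s : C × Fin D × Fin N => s.1 = c ∧ s.2.2 ∈ (univ : Finset (Fin N))) ⊆
          Kept c ∪ Del ∪ (univ.filter fun s : C × Fin D × Fin N =>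
            (s.1 = c ∧ s.2.2 ∈ (univ : Finset (Fin N))) ∧ f s ∈ High c) := by
        intro s hs
        obtain ⟨_, h4, h5⟩ := mem_filter.1 hs
        by_cases h6 : s ∈ Del
        · exact mem_union_left _ (mem_union_right _ h6)
        · by_cases h7 : f s ∈ High c
          · exact mem_union_right _ (mem_filter.2 ⟨mem_univ _, ⟨h4, h5⟩, h7⟩)
          · exact mem_union_left _ (mem_union_left _ (mem_filter.2 ⟨mem_univ _, h4, h6, h7⟩))
      have h4 := card_le_card h3
      rw [card_slots, card_univ, Fintype.card_fin] at h4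
      refine h4.trans ((card_union_le _ _).trans ?_)
      unfold Zc
      exact Nat.add_le_add_right (card_union_le _ _) _
    have h3 : 5 * D * (High c).card ≤ 4 * Zc c univ (High c) f := by
      have h4 : Zc c univ (High c) f = ∑ y ∈ High c,
          (univ.filter fun s : C × Fin D × Fin N => s.1 = c ∧ f s = y).card := by
        unfold Zc
        rw [card_eq_sum_card_fiberwise (f := f) (t := High c)]
        · refine sum_congr rfl fun y hy => ?_
          congr 1
          ext s
          simp only [mem_filter, mem_univ, true_and, and_true]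
          constructor
          · rintro ⟨⟨h5, _⟩, h7⟩
            exact ⟨h5, h7⟩
          · rintro ⟨h5, h6⟩
            exact ⟨⟨h5, by rw [h6]; exact hy⟩, h6⟩
        · intro s hs
          exact (mem_filter.1 hs).2.2
      rw [h4, mul_sum]
      calc 5 * D * (High c).card = ∑ _y ∈ High c, 5 * D := by rw [sum_const, smul_eq_mul, mul_comm]
        _ ≤ _ := by
          refine sum_le_sum fun y hy => ?_
          rw [hHigh] at hy
          exact (mem_filter.1 hy).2.le
    have h4 := hdisc c univ (High c)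
    rw [card_univ, Fintype.card_fin] at h4
    have h5 : (D * N * (High c).card / N + τ * D * N : ℝ) = D * (High c).card + τ * D * N := by
      field_simp
    rw [h5] at h4
    have h6 : (5 * D * (High c).card : ℝ) ≤ 4 * Zc c univ (High c) f := by exact_mod_cast h3
    have h7 : (D * N : ℝ) ≤ (Kept c).card + Del.card + Zc c univ (High c) f := by exact_mod_cast h2
    rw [h1]
    linarith
  · intro c A hA A' hA'
    set A1 : Finset (Fin N) := univ.filter fun x => (x : ℕ) ∈ A with hA1
    set A2 : Finset (Fin N) := univ.filter fun x => (x : ℕ) ∈ A' with hA2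
    have hc : ∀ A : Finset ℕ, A ⊆ range N → (univ.filter fun x : Fin N => (x : ℕ) ∈ A).card =
        A.card := by
      intro A hA
      refine card_bij (fun x _ => (x : ℕ)) ?_ ?_ ?_
      · intro x hx
        exact (mem_filter.1 hx).2
      · intro x _ x' _ h
        exact Fin.ext h
      · intro x hx
        have hxN := mem_range.1 (hA hx)
        exact ⟨⟨x, hxN⟩, mem_filter.2 ⟨mem_univ _, hx⟩, rfl⟩
    have h1 := hdisc c A1 A2
    rw [hA1, hA2, hc A hA, hc A' hA', ← hA1, ← hA2] at h1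
    refine le_trans ?_ h1
    have h2 : ((B c).filter fun p => p.1 ∈ A ∧ p.2 ∈ A').card ≤ Zc c A1 A2 f := by
      have h3 : ((B c).filter fun p => p.1 ∈ A ∧ p.2 ∈ A') ⊆
          (univ.filter fun s : C × Fin D × Fin N => (s.1 = c ∧ s.2.2 ∈ A1) ∧ f s ∈ A2).image
            fun s => ((s.2.2 : ℕ), (f s : ℕ)) := by
        intro p hp
        obtain ⟨hp1, hp2, hp3⟩ := mem_filter.1 hp
        obtain ⟨s, h1, _, _, h3, h4⟩ := hmemB c p hp1
        refine mem_image.2 ⟨s, mem_filter.2 ⟨mem_univ _, ⟨h1, ?_⟩, ?_⟩, Prod.ext h3 h4⟩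
        · exact mem_filter.2 ⟨mem_univ _, by rw [h3]; exact hp2⟩
        · exact mem_filter.2 ⟨mem_univ _, by rw [h4]; exact hp3⟩
      exact (card_le_card h3).trans card_image_le
    exact_mod_cast h2
  · intro X Y hpos hle
    by_contra hcon
    push Not at hcon
    set X1 : Finset (Fin N) := univ.filter fun x => (x : ℕ) ∈ X with hX1
    set Y1 : Finset (Fin N) := univ.filter fun x => (x : ℕ) ∈ Y with hY1
    have hc : ∀ A : Finset ℕ, (univ.filter fun x : Fin N => (x : ℕ) ∈ A).card ≤ A.card := by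
      intro A
      refine card_le_card_of_injOn (fun x => (x : ℕ)) ?_ ?_
      · intro x hx
        exact (mem_filter.1 hx).2
      · intro x _ x' _ h
        exact Fin.ext h
    have hcX : X1.card ≤ X.card := hc X
    have hcY : Y1.card ≤ Y.card := hc Y
    set E0 : Finset (C × Fin D × Fin N) := univ.filter fun s => s ∉ Del ∧ s.2.2 ∈ X1 ∧ f s ∈ Y1
      with hE0
    have h1 : ((univ.biUnion B).filter fun p => p.1 ∈ X ∧ p.2 ∈ Y) ⊆
        E0.image fun s => ((s.2.2 : ℕ), (f s : ℕ)) := by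
      intro p hp
      obtain ⟨hp1, hp2, hp3⟩ := mem_filter.1 hp
      obtain ⟨c, _, hpc⟩ := mem_biUnion.1 hp1
      obtain ⟨s, h1, h2, _, h3, h4⟩ := hmemB c p hpc
      refine mem_image.2 ⟨s, mem_filter.2 ⟨mem_univ _, h2, ?_, ?_⟩, Prod.ext h3 h4⟩
      · exact mem_filter.2 ⟨mem_univ _, by rw [h3]; exact hp2⟩
      · exact mem_filter.2 ⟨mem_univ _, by rw [h4]; exact hp3⟩
    have h2 : X.card + Y.card ≤ E0.card := hcon.trans ((card_le_card h1).trans card_image_le)
    obtain ⟨s0, hs0⟩ : E0.Nonempty := card_pos.1 (by omega)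
    have hX1pos : 0 < X1.card := card_pos.2 ⟨s0.2.2, (mem_filter.1 hs0).2.2.1⟩
    obtain ⟨E, hE, hEc⟩ := exists_subset_card_eq (show X1.card + Y1.card ≤ E0.card by omega)
    obtain ⟨s, hs, hsD⟩ := hsp X1 Y1 E ⟨by dsimp only; omega, by dsimp only; omega, hEc,
      fun s hs => (mem_filter.1 (hE hs)).2.2.1⟩ (fun s hs => (mem_filter.1 (hE hs)).2.2.2)
    exact (mem_filter.1 (hE hs)).2.1 hsD

theorem exists_gadget [Nonempty C] (g : ℕ) (hg : 2 ≤ g) {τ : ℝ} (hτ : 0 < τ) (hτ1 : τ ≤ 1) :
    ∃ D N : ℕ, ∃ B : C → Finset (ℕ × ℕ), Gadget C g τ D N B := by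
  obtain ⟨D, N, _, B, hB⟩ := exists_gadget' (C := C) g hg hτ hτ1 fun _ => 0
  exact ⟨D, N, B, hB⟩

end Pool.Agent.H697.Exp
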