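import Pool.Agent.H697.Forest.Bip

/-!
# Short cycles under locally injective homomorphisms
-/

namespace Pool.Agent.H697.Exp

open Finset SimpleGraph Pool.Agent.H697.Forest

/-- All cycles are longer than `g`. -/
def GirthGT {V : Type*} (G : SimpleGraph V) (g : ℕ) : Prop :=
  ∀ (a : V) (p : G.Walk a a), p.IsCycle → g < p.length

theorem girthGT_of_sparse {F : Finset (ℕ × ℕ)} {g : ℕ}
    (h : ∀ X Y : Finset ℕ, 0 < X.card + Y.card → X.card + Y.card ≤ g →
      (F.filter fun p => p.1 ∈ X ∧ p.2 ∈ Y).card < X.card + Y.card) :
    GirthGT (bip (F : Set (ℕ × ℕ))) g := by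
  classical
  intro a p hp
  by_contra hcon
  push Not at hcon
  set V : Finset (ℕ ⊕ ℕ) := p.support.tail.toFinset with hV
  have hVc : V.card = p.length := by
    rw [hV, List.toFinset_card_of_nodup hp.support_nodup, List.length_tail,
      Walk.length_support]
    rfl
  have hlen := hp.three_le_length
  have hmem : ∀ x ∈ p.support, x ∈ V := by
    intro x hx
    rw [hV, List.mem_toFinset]
    rw [← Walk.cons_tail_support] at hx
    rcases List.mem_cons.1 hx with rfl | hx
    · exact Walk.end_mem_tail_support hp.not_nil
    · exact hx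
  have h1 := h V.toLeft V.toRight (by rw [card_toLeft_add_card_toRight]; omega)
    (by rw [card_toLeft_add_card_toRight]; omega)
  rw [card_toLeft_add_card_toRight, hVc] at h1
  have h2 : p.edges.toFinset.card = p.length := by
    rw [List.toFinset_card_of_nodup hp.isTrail.edges_nodup, Walk.length_edges]
  have h3 : p.edges.toFinset ⊆ (F.filter fun q => q.1 ∈ V.toLeft ∧ q.2 ∈ V.toRight).image
      fun q => s(Sum.inl q.1, Sum.inr q.2) := by
    intro e he
    rw [List.mem_toFinset] at he
    induction e using Sym2.ind with
    | _ x y =>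
      have hadj : (bip (F : Set (ℕ × ℕ))).Adj x y := p.adj_of_mem_edges he
      have hx := hmem x (p.fst_mem_support_of_mem_edges he)
      have hy := hmem y (p.snd_mem_support_of_mem_edges he)
      rw [mem_image]
      rcases x with x | x <;> rcases y with y | y
      · exact absurd hadj (by simp [bip])
      · refine ⟨(x, y), ?_, rfl⟩
        rw [mem_filter, mem_toLeft, mem_toRight]
        exact ⟨hadj, hx, hy⟩
      · refine ⟨(y, x), ?_, Sym2.eq_swap⟩
        rw [mem_filter, mem_toLeft, mem_toRight]
        exact ⟨hadj, hy, hx⟩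
      · exact absurd hadj (by simp [bip])
  have h4 := (card_le_card h3).trans card_image_le
  omega

theorem chain_map {V V' : Type*} {G : SimpleGraph V} {G' : SimpleGraph V'} (φ : G →g G')
    (hφ : ∀ a b b', G.Adj a b → G.Adj a b' → φ b = φ b' → b = b') {a b : V} (p : G.Walk a b)
    (hp : List.IsChain (· ≠ ·) p.edges) : List.IsChain (· ≠ ·) (p.map φ).edges := by
  induction p with
  | nil => simp
  | @cons u v w hadj q ih =>
    cases q with
    | nil => simp
    | @cons _ v' _ hadj' q' =>
      simp only [Walk.edges_cons, Walk.map_cons, List.isChain_cons_cons] at hp ih ⊢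
      refine ⟨?_, ih hp.2⟩
      intro heq
      rw [Sym2.eq_iff] at heq
      rcases heq with ⟨h1, _⟩ | ⟨h1, _⟩
      · exact (φ.map_adj hadj).ne h1
      · have := hφ v u v' hadj.symm hadj' h1
        apply hp.1
        rw [this, Sym2.eq_swap]

theorem girthGT_of_hom {V V' : Type*} {G : SimpleGraph V} {G' : SimpleGraph V'} (φ : G →g G')
    (hφ : ∀ a b b', G.Adj a b → G.Adj a b' → φ b = φ b' → b = b') {g : ℕ} (hG : GirthGT G' g) :
    GirthGT G g := by
  classical
  intro a p hp
  by_contra hcon
  push Not at hcon
  set q := p.map φ with hq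
  have hqc : List.IsChain (· ≠ ·) q.edges := chain_map φ hφ p hp.isTrail.edges_nodup.isChain
  set H : SimpleGraph V' := SimpleGraph.fromEdgeSet {e | e ∈ q.edges} with hH
  have hHG : H ≤ G' := by
    intro x y hxy
    rw [hH, fromEdgeSet_adj] at hxy
    exact q.adj_of_mem_edges hxy.1
  have hqH : ∀ e, e ∈ q.edges → e ∈ H.edgeSet := by
    intro e he
    rw [hH, edgeSet_fromEdgeSet]
    refine ⟨he, ?_⟩
    intro hd
    exact G'.not_isDiag_of_mem_edgeSet (q.edges_subset_edgeSet he) hd
  have hac : H.IsAcyclic := by
    intro x c hc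
    have h1 := hG x (c.map (SimpleGraph.Hom.ofLE hHG)) (hc.map (fun x y h => h))
    rw [Walk.length_map] at h1
    have h2 : c.support.tail.toFinset ⊆ q.support.tail.toFinset := by
      intro y hy
      rw [List.mem_toFinset] at hy ⊢
      have hy' : y ∈ c.support := List.mem_of_mem_tail hy
      obtain ⟨e, he, hye⟩ : ∃ e ∈ c.edges, y ∈ e := by
        exact (Walk.mem_support_iff_exists_mem_edges_of_not_nil hc.not_nil).1 hy'
      have h4 := c.edges_subset_edgeSet he
      rw [hH, edgeSet_fromEdgeSet] at h4
      have h5 : e ∈ q.edges := h4.1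
      have h6 : y ∈ q.support := Walk.mem_support_of_mem_edges h5 hye
      rw [← Walk.cons_tail_support] at h6
      rcases List.mem_cons.1 h6 with rfl | h6
      · apply Walk.end_mem_tail_support
        rw [Walk.not_nil_iff_lt_length, hq, Walk.length_map]
        have := hp.three_le_length
        omega
      · exact h6
    have h3 := card_le_card h2
    rw [List.toFinset_card_of_nodup hc.support_nodup, List.length_tail,
      Walk.length_support] at h3
    have h4 : q.support.tail.toFinset.card ≤ p.length := by
      refine (List.toFinset_card_le _).trans ?_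
      rw [List.length_tail, Walk.length_support, hq, Walk.length_map]
      omega
    omega
  have h1 := (hac.isPath_iff_isChain (q.transfer H hqH)).2 (by rw [Walk.edges_transfer]; exact hqc)
  have h2 := Walk.isPath_iff_nil.1 h1
  have h3 : (q.transfer H hqH).length = 0 := Walk.length_eq_zero_iff.2 h2
  rw [Walk.length_transfer, hq, Walk.length_map] at h3
  have := hp.three_le_length
  omega

end Pool.Agent.H697.Exp
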