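import Pool.Agent.H697.Exp.Four

/-!
# Random words in the Margulis-Gabber-Galil generators mix
-/

namespace Pool.Agent.H697.Exp

open Finset

variable {n : ℕ} [NeZero n]

/-- The eight generators. -/
def gen : Fin 8 → (ZMod n × ZMod n) ≃ (ZMod n × ZMod n) :=
  ![E1 0, E1 1, E2 0, E2 1, (E1 0).symm, (E1 1).symm, (E2 0).symm, (E2 1).symm]

/-- The averaging operator. -/
noncomputable def Mop (f : ZMod n × ZMod n → ℝ) (z : ZMod n × ZMod n) : ℝ :=
  (∑ i : Fin 8, f (gen i z)) / 8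

theorem Mop_eq (f : ZMod n × ZMod n → ℝ) (z : ZMod n × ZMod n) :
    Mop f z = (f (E1 0 z) + f (E1 1 z) + f (E2 0 z) + f (E2 1 z) + f ((E1 0).symm z) +
      f ((E1 1).symm z) + f ((E2 0).symm z) + f ((E2 1).symm z)) / 8 := by
  unfold Mop gen
  rw [Fin.sum_univ_eight]
  rfl

theorem sum_comp_symm (e : (ZMod n × ZMod n) ≃ (ZMod n × ZMod n)) (f g : ZMod n × ZMod n → ℝ) :
    ∑ z, f z * g (e.symm z) = ∑ z, g z * f (e z) := by
  refine Fintype.sum_equiv e.symm _ _ fun z => ?_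
  rw [Equiv.apply_symm_apply, mul_comm]

/-- The bilinear form of the averaging operator. -/
noncomputable def Bf (f g : ZMod n × ZMod n → ℝ) : ℝ := ∑ z, f z * Mop g z

theorem Bf_eq (f g : ZMod n × ZMod n → ℝ) : 8 * Bf f g =
    (∑ z, f z * g (E1 0 z) + ∑ z, f z * g (E1 1 z) + ∑ z, f z * g (E2 0 z) +
      ∑ z, f z * g (E2 1 z)) + (∑ z, g z * f (E1 0 z) + ∑ z, g z * f (E1 1 z) +
      ∑ z, g z * f (E2 0 z) + ∑ z, g z * f (E2 1 z)) := by
  rw [← sum_comp_symm (E1 0) f g, ← sum_comp_symm (E1 1) f g, ← sum_comp_symm (E2 0) f g,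
    ← sum_comp_symm (E2 1) f g]
  unfold Bf
  simp only [Mop_eq, ← Finset.sum_add_distrib, Finset.mul_sum]
  exact Finset.sum_congr rfl fun z _ => by ring

theorem Bf_self (f : ZMod n × ZMod n → ℝ) : 4 * Bf f f = Qf f := by
  have h := Bf_eq f f
  have h2 : Qf f = ∑ z, f z * f (E1 0 z) + ∑ z, f z * f (E1 1 z) + ∑ z, f z * f (E2 0 z) +
      ∑ z, f z * f (E2 1 z) := by
    unfold Qf
    rw [← Finset.sum_add_distrib, ← Finset.sum_add_distrib, ← Finset.sum_add_distrib]
    exact Finset.sum_congr rfl fun z _ => by ring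
  linarith

theorem Mop_add (f g : ZMod n × ZMod n → ℝ) (z) : Mop (fun z => f z + g z) z = Mop f z + Mop g z := by
  rw [Mop_eq, Mop_eq, Mop_eq]; ring

theorem Mop_sub (f g : ZMod n × ZMod n → ℝ) (z) : Mop (fun z => f z - g z) z = Mop f z - Mop g z := by
  rw [Mop_eq, Mop_eq, Mop_eq]; ring

theorem Bf_comm (f g : ZMod n × ZMod n → ℝ) : Bf f g = Bf g f := by
  have h := Bf_eq f g
  have h2 := Bf_eq g f
  linarith

theorem Bf_polar (f g : ZMod n × ZMod n → ℝ) :
    4 * Bf f g = Bf (fun z => f z + g z) (fun z => f z + g z) -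
      Bf (fun z => f z - g z) (fun z => f z - g z) := by
  have e1 : Bf (fun z => f z + g z) (fun z => f z + g z) = Bf f f + Bf f g + Bf g f + Bf g g := by
    unfold Bf
    simp only [Mop_add, ← Finset.sum_add_distrib]
    exact Finset.sum_congr rfl fun z _ => by ring
  have e2 : Bf (fun z => f z - g z) (fun z => f z - g z) = Bf f f - Bf f g - Bf g f + Bf g g := by
    unfold Bf
    simp only [Mop_sub, ← Finset.sum_add_distrib, ← Finset.sum_sub_distrib]
    exact Finset.sum_congr rfl fun z _ => by ring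
  rw [e1, e2, Bf_comm g f]
  ring

theorem sum_Mop (f : ZMod n × ZMod n → ℝ) : ∑ z, Mop f z = ∑ z, f z := by
  unfold Mop
  rw [← Finset.sum_div, Finset.sum_comm]
  have : ∀ i : Fin 8, ∑ z, f (gen i z) = ∑ z, f z := fun i => Equiv.sum_comp (gen i) f
  simp only [this]
  simp

theorem Mop_contract {f : ZMod n × ZMod n → ℝ} (hf : ∑ z, f z = 0) :
    ∑ z, Mop f z ^ 2 ≤ (73 / 80) ^ 2 * ∑ z, f z ^ 2 := by
  have hself : ∀ g : ZMod n × ZMod n → ℝ, ∑ z, g z = 0 → |Bf g g| ≤ 73 / 80 * ∑ z, g z ^ 2 := by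
    intro g hg
    have h1 := Qf_le hg
    rw [← Bf_self, abs_mul] at h1
    rw [abs_of_pos (by norm_num : (0 : ℝ) < 4)] at h1
    linarith
  set g : ZMod n × ZMod n → ℝ := fun z => 80 / 73 * Mop f z with hg
  have hg0 : ∑ z, g z = 0 := by
    rw [hg, ← Finset.mul_sum, sum_Mop, hf, mul_zero]
  have h1 := hself (fun z => g z + f z) (by rw [Finset.sum_add_distrib, hf, hg0, add_zero])
  have h2 := hself (fun z => g z - f z) (by rw [Finset.sum_sub_distrib, hf, hg0, sub_zero])
  have h3 := Bf_polar g f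
  have h4 : Bf g f = 80 / 73 * ∑ z, Mop f z ^ 2 := by
    unfold Bf
    rw [Finset.mul_sum]
    exact Finset.sum_congr rfl fun z _ => by rw [hg]; ring
  have h5 : ∑ z, (g z + f z) ^ 2 + ∑ z, (g z - f z) ^ 2 =
      2 * ((80 / 73) ^ 2 * ∑ z, Mop f z ^ 2) + 2 * ∑ z, f z ^ 2 := by
    rw [Finset.mul_sum, Finset.mul_sum, Finset.mul_sum, ← Finset.sum_add_distrib,
      ← Finset.sum_add_distrib]
    exact Finset.sum_congr rfl fun z _ => by rw [hg]; ring
  rw [h4] at h3
  have h6 := le_abs_self (Bf (fun z => g z + f z) (fun z => g z + f z))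
  have h7 := neg_abs_le (Bf (fun z => g z - f z) (fun z => g z - f z))
  nlinarith

/-- The action of a word. -/
def act : {t : ℕ} → (Fin t → Fin 8) → ZMod n × ZMod n → ZMod n × ZMod n
  | 0, _, z => z
  | _ + 1, w, z => act (fun j => w j.succ) (gen (w 0) z)

/-- The average over all words of length `t`. -/
noncomputable def avg (t : ℕ) (f : ZMod n × ZMod n → ℝ) (z : ZMod n × ZMod n) : ℝ :=
  (∑ w : Fin t → Fin 8, f (act w z)) / 8 ^ t

theorem act_injective {t : ℕ} (w : Fin t → Fin 8) :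
    Function.Injective (act w : ZMod n × ZMod n → ZMod n × ZMod n) := by
  induction t with
  | zero => intro a b h; exact h
  | succ t ih => exact fun a b h => (gen (w 0)).injective (ih _ h)

theorem avg_zero (f : ZMod n × ZMod n → ℝ) (z) : avg 0 f z = f z := by
  unfold avg
  simp [act]

theorem avg_succ (t : ℕ) (f : ZMod n × ZMod n → ℝ) (z) : avg (t + 1) f z = Mop (avg t f) z := by
  unfold avg Mop
  rw [← Finset.sum_div, div_div, mul_comm ((8 : ℝ) ^ t) 8, ← pow_succ']
  congr 1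
  rw [← (Fin.consEquiv fun _ : Fin (t + 1) => Fin 8).sum_comp, Fintype.sum_prod_type]
  refine Finset.sum_congr rfl fun i _ => Finset.sum_congr rfl fun w _ => ?_
  rfl

theorem sum_avg (t : ℕ) (f : ZMod n × ZMod n → ℝ) : ∑ z, avg t f z = ∑ z, f z := by
  induction t with
  | zero => simp only [avg_zero]
  | succ t ih => simp only [avg_succ]; rw [sum_Mop, ih]

theorem avg_contract {f : ZMod n × ZMod n → ℝ} (hf : ∑ z, f z = 0) (t : ℕ) :
    ∑ z, avg t f z ^ 2 ≤ ((73 / 80) ^ t) ^ 2 * ∑ z, f z ^ 2 := by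
  induction t with
  | zero => simp only [avg_zero, pow_zero, one_pow, one_mul]; exact le_refl _
  | succ t ih =>
    simp only [avg_succ]
    refine (Mop_contract (by rw [sum_avg, hf])).trans ?_
    refine (mul_le_mul_of_nonneg_left ih (by positivity)).trans (le_of_eq ?_)
    ring

/-- The mean. -/
noncomputable def mean (f : ZMod n × ZMod n → ℝ) : ℝ := (∑ z, f z) / (n : ℝ) ^ 2

theorem sum_sub_mean (f : ZMod n × ZMod n → ℝ) : ∑ z, (f z - mean f) = 0 := by
  have hn : (n : ℝ) ≠ 0 := by exact_mod_cast NeZero.ne n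
  rw [Finset.sum_sub_distrib, Finset.sum_const, Finset.card_univ, Fintype.card_prod, ZMod.card,
    nsmul_eq_mul]
  unfold mean
  push_cast
  field_simp
  ring

theorem avg_sub_const (t : ℕ) (f : ZMod n × ZMod n → ℝ) (c : ℝ) (z) :
    avg t (fun z => f z - c) z = avg t f z - c := by
  unfold avg
  rw [Finset.sum_sub_distrib, Finset.sum_const, Finset.card_univ, Fintype.card_fun,
    Fintype.card_fin, Fintype.card_fin, nsmul_eq_mul, sub_div]
  push_cast
  rw [mul_comm, mul_div_assoc, div_self (by positivity), mul_one]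

/-- Words mix. -/
theorem avg_mix (f : ZMod n × ZMod n → ℝ) (t : ℕ) :
    ∑ z, (avg t f z - mean f) ^ 2 ≤ ((73 / 80) ^ t) ^ 2 * ∑ z, f z ^ 2 := by
  have h1 := avg_contract (sum_sub_mean f) t
  simp only [avg_sub_const] at h1
  refine h1.trans (mul_le_mul_of_nonneg_left ?_ (by positivity))
  have hn : (n : ℝ) ≠ 0 := by exact_mod_cast NeZero.ne n
  have h2 : ∑ z, (f z - mean f) ^ 2 = ∑ z, f z ^ 2 - (n : ℝ) ^ 2 * mean f ^ 2 := by
    have h3 : ∑ z, (f z - mean f) ^ 2 = ∑ z, f z ^ 2 - 2 * mean f * ∑ z, f z +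
        ∑ _z : ZMod n × ZMod n, mean f ^ 2 := by
      rw [Finset.mul_sum, ← Finset.sum_sub_distrib, ← Finset.sum_add_distrib]
      exact Finset.sum_congr rfl fun z _ => by ring
    rw [h3, Finset.sum_const, Finset.card_univ, Fintype.card_prod, ZMod.card, nsmul_eq_mul]
    have h4 : ∑ z, f z = (n : ℝ) ^ 2 * mean f := by
      unfold mean; field_simp
    rw [h4]
    push_cast
    ring
  rw [h2]
  have : 0 ≤ (n : ℝ) ^ 2 * mean f ^ 2 := by positivity
  linarith

end Pool.Agent.H697.Exp
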