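import Pool.Agent.H697.Exp.Girth

/-!
# Switching edges in graphs of large girth
-/

namespace Pool.Agent.H697.Exp

open Finset SimpleGraph Pool.Agent.H697.Forest

section
variable {V : Type*}

/-- There is a walk of length less than `n`. -/
def Near (G : SimpleGraph V) (n : ℕ) (a b : V) : Prop := ∃ p : G.Walk a b, p.length < n

theorem Near.symm {G : SimpleGraph V} {n : ℕ} {a b : V} (h : Near G n a b) : Near G n b a := by
  obtain ⟨p, hp⟩ := h
  exact ⟨p.reverse, by rwa [Walk.length_reverse]⟩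

theorem Near.mono {G G' : SimpleGraph V} (hle : G ≤ G') {n : ℕ} {a b : V} (h : Near G n a b) :
    Near G' n a b := by
  obtain ⟨p, hp⟩ := h
  exact ⟨p.mapLe hle, by rwa [Walk.length_map]⟩

theorem GirthGT.anti {G G' : SimpleGraph V} {g : ℕ} (hle : G ≤ G') (h : GirthGT G' g) :
    GirthGT G g := by
  intro a p hp
  have := h a (p.mapLe hle) (hp.map (fun x y h => h))
  rwa [Walk.length_map] at this

theorem split_edge {G : SimpleGraph V} {u v : V} : ∀ {a b : V} (p : G.Walk a b),
    s(u, v) ∈ p.edges →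
    (∃ (p₁ : G.Walk a u) (h : G.Adj u v) (p₂ : G.Walk v b), p = p₁.append (Walk.cons h p₂)) ∨
    (∃ (p₁ : G.Walk a v) (h : G.Adj v u) (p₂ : G.Walk u b), p = p₁.append (Walk.cons h p₂))
  | _, _, .nil, h => by simp at h
  | _, _, .cons h q, he => by
    rw [Walk.edges_cons, List.mem_cons] at he
    rcases he with he | he
    · rw [Sym2.eq_iff] at he
      rcases he with ⟨rfl, rfl⟩ | ⟨rfl, rfl⟩
      · exact Or.inl ⟨Walk.nil, h, q, rfl⟩
      · exact Or.inr ⟨Walk.nil, h, q, rfl⟩
    · rcases split_edge q he with ⟨p₁, h', p₂, rfl⟩ | ⟨p₁, h', p₂, rfl⟩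
      · exact Or.inl ⟨Walk.cons h p₁, h', p₂, rfl⟩
      · exact Or.inr ⟨Walk.cons h p₁, h', p₂, rfl⟩

/-- Adding an edge between two vertices which are far away. -/
theorem GirthGT.add {G G' : SimpleGraph V} {g : ℕ} (h : GirthGT G g) {u v : V}
    (hnear : ¬ Near G g u v) (hG' : ∀ x y, G'.Adj x y → G.Adj x y ∨ s(x, y) = s(u, v)) :
    GirthGT G' g := by
  intro a p hp
  by_contra hcon
  push Not at hcon
  have key : ∀ {x y : V} (q : G'.Walk x y), s(u, v) ∉ q.edges → ∀ e ∈ q.edges, e ∈ G.edgeSet := by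
    intro x y q hq e he
    induction e using Sym2.ind with
    | _ x' y' =>
      have h1 := q.adj_of_mem_edges he
      rcases hG' _ _ h1 with h2 | h2
      · exact h2
      · rw [h2] at he
        exact absurd he hq
  have main : ∀ {u' v' : V}, s(u', v') = s(u, v) → ∀ (p₁ : G'.Walk a u') (h : G'.Adj u' v')
      (p₂ : G'.Walk v' a), p = p₁.append (Walk.cons h p₂) → ¬ Near G g v' u' → False := by
    intro u' v' huv p₁ h p₂ heq hn
    have hnd := hp.isTrail.edges_nodup
    rw [heq, Walk.edges_append, Walk.edges_cons] at hnd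
    have h1 : s(u, v) ∉ (p₂.append p₁).edges := by
      rw [Walk.edges_append, ← huv]
      intro hmem
      rw [List.mem_append] at hmem
      have h2 := List.nodup_append.1 hnd
      rcases hmem with hmem | hmem
      · exact (List.nodup_cons.1 h2.2.1).1 hmem
      · exact h2.2.2 _ hmem _ List.mem_cons_self rfl
    apply hn
    refine ⟨(p₂.append p₁).transfer G (key _ h1), ?_⟩
    rw [Walk.length_transfer, Walk.length_append]
    rw [heq, Walk.length_append, Walk.length_cons] at hcon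
    omega
  by_cases he : s(u, v) ∈ p.edges
  · rcases split_edge p he with ⟨p₁, h', p₂, heq⟩ | ⟨p₁, h', p₂, heq⟩
    · exact main rfl p₁ h' p₂ heq fun hn => hnear hn.symm
    · exact main Sym2.eq_swap p₁ h' p₂ heq hnear
  · have h1 := h a (p.transfer G (key p he)) (hp.transfer (key p he))
    rw [Walk.length_transfer] at h1
    omega

/-- The part of a walk before the first use of an edge. -/
theorem first_use {G₁ G₂ : SimpleGraph V} {x y : V}
    (hG : ∀ u v, G₂.Adj u v → G₁.Adj u v ∨ s(u, v) = s(x, y)) {n : ℕ} :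
    ∀ {a b : V} (p : G₂.Walk a b), p.length < n →
      Near G₁ n a b ∨ Near G₁ n a x ∨ Near G₁ n a y := by
  intro a b p
  induction p generalizing n with
  | nil => exact fun h => Or.inl ⟨Walk.nil, h⟩
  | @cons a c b h q ih =>
    intro hlen
    rw [Walk.length_cons] at hlen
    rcases hG _ _ h with h1 | h1
    · obtain ⟨m, rfl⟩ : ∃ m, n = m + 1 := ⟨n - 1, by omega⟩
      have ext : ∀ {z : V}, Near G₁ m c z → Near G₁ (m + 1) a z := by
        rintro z ⟨r, hr⟩
        exact ⟨Walk.cons h1 r, by rw [Walk.length_cons]; omega⟩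
      rcases ih (n := m) (by omega) with h2 | h2 | h2
      · exact Or.inl (ext h2)
      · exact Or.inr (Or.inl (ext h2))
      · exact Or.inr (Or.inr (ext h2))
    · rw [Sym2.eq_iff] at h1
      rcases h1 with ⟨rfl, rfl⟩ | ⟨rfl, rfl⟩
      · exact Or.inr (Or.inl ⟨Walk.nil, by rw [Walk.length_nil]; omega⟩)
      · exact Or.inr (Or.inr ⟨Walk.nil, by rw [Walk.length_nil]; omega⟩)

/-- After deleting an edge its ends are far away. -/
theorem GirthGT.not_near {G G₁ : SimpleGraph V} {g : ℕ} (h : GirthGT G g) {u v : V}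
    (huv : G.Adj u v) (hle : G₁ ≤ G) (hn : ¬ G₁.Adj u v) : ¬ Near G₁ g u v := by
  classical
  intro hnear
  obtain ⟨q, hq⟩ := hnear.symm
  have h1 : (q.bypass.mapLe hle).IsPath := (Walk.isPath_mapLe hle).2 q.bypass_isPath
  have h2 : (Walk.cons huv (q.bypass.mapLe hle)).IsCycle := by
    rw [Walk.cons_isCycle_iff]
    refine ⟨h1, ?_⟩
    intro hmem
    rw [Walk.edges_mapLe_eq_edges] at hmem
    exact hn (q.bypass.adj_of_mem_edges hmem)
  have h3 := h _ _ h2
  rw [Walk.length_cons, Walk.length_map] at h3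
  have h4 := q.length_bypass_le_length
  omega

end

/-! ### Balls -/

/-- The neighbours. -/
def nb (F : Finset (ℕ × ℕ)) : ℕ ⊕ ℕ → Finset (ℕ ⊕ ℕ)
  | Sum.inl u => (F.filter fun e => e.1 = u).image fun e => Sum.inr e.2
  | Sum.inr v => (F.filter fun e => e.2 = v).image fun e => Sum.inl e.1

theorem mem_nb {F : Finset (ℕ × ℕ)} {a b : ℕ ⊕ ℕ} (h : (bip (F : Set (ℕ × ℕ))).Adj a b) :
    b ∈ nb F a := by
  rcases a with a | a <;> rcases b with b | b
  · exact h.elim
  · exact mem_image.2 ⟨(a, b), mem_filter.2 ⟨h, rfl⟩, rfl⟩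
  · exact mem_image.2 ⟨(b, a), mem_filter.2 ⟨h, rfl⟩, rfl⟩
  · exact h.elim

/-- The vertices at distance less than `n`. -/
def ball (F : Finset (ℕ × ℕ)) : ℕ → ℕ ⊕ ℕ → Finset (ℕ ⊕ ℕ)
  | 0, _ => ∅
  | n + 1, a => insert a ((nb F a).biUnion (ball F n))

theorem mem_ball {F : Finset (ℕ × ℕ)} {n : ℕ} {a b : ℕ ⊕ ℕ}
    (h : Near (bip (F : Set (ℕ × ℕ))) n a b) : b ∈ ball F n a := by
  obtain ⟨p, hp⟩ := h
  induction p generalizing n with
  | nil =>
    obtain ⟨m, rfl⟩ : ∃ m, n = m + 1 := ⟨n - 1, by rw [Walk.length_nil] at hp; omega⟩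
    exact mem_insert_self _ _
  | @cons a c b h q ih =>
    rw [Walk.length_cons] at hp
    obtain ⟨m, rfl⟩ : ∃ m, n = m + 1 := ⟨n - 1, by omega⟩
    exact mem_insert_of_mem (mem_biUnion.2 ⟨c, mem_nb h, ih (by omega)⟩)

theorem card_ball {F : Finset (ℕ × ℕ)} {d : ℕ} (hd : ∀ a, (nb F a).card ≤ d) (n : ℕ) :
    ∀ a, (ball F n a).card ≤ (d + 1) ^ n := by
  induction n with
  | zero => intro a; simp [ball]
  | succ n ih =>
    intro a
    unfold ball
    refine (card_insert_le _ _).trans ?_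
    have h1 : ((nb F a).biUnion (ball F n)).card ≤ d * (d + 1) ^ n := by
      refine card_biUnion_le.trans ((sum_le_sum fun b _ => ih b).trans ?_)
      rw [sum_const, smul_eq_mul]
      exact Nat.mul_le_mul_right _ (hd a)
    have h2 : 1 ≤ (d + 1) ^ n := Nat.one_le_pow _ _ (by omega)
    rw [pow_succ]
    nlinarith

end Pool.Agent.H697.Exp
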