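import Pool.Agent.H697.Exp.Gadget
import Pool.Agent.H697.Exp.Switch

/-!
# Regular gadgets
-/

namespace Pool.Agent.H697.Exp

open Finset SimpleGraph Pool.Agent.H697.Forest

variable {C : Type} [Fintype C] [DecidableEq C]

/-- Disjoint colour classes with degrees at most `D`, without short cycles. -/
structure Part (C : Type) [Fintype C] (g D N : ℕ) (B : C → Finset (ℕ × ℕ)) : Prop where
  lt : ∀ c, ∀ p ∈ B c, p.1 < N ∧ p.2 < N
  disj : ∀ c c' p, p ∈ B c → p ∈ B c' → c = c'
  left : ∀ c x, ((B c).filter fun p => p.1 = x).card ≤ D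
  right : ∀ c y, ((B c).filter fun p => p.2 = y).card ≤ D
  girth : GirthGT (bip ((univ.biUnion B : Finset (ℕ × ℕ)) : Set (ℕ × ℕ))) g

omit [DecidableEq C] in
theorem Part.card_le {g D N : ℕ} {B : C → Finset (ℕ × ℕ)} (h : Part C g D N B) (c : C) :
    (B c).card ≤ D * N := by
  rw [card_eq_sum_card_fiberwise (f := Prod.fst) (t := range N)
    (fun p hp => mem_coe.2 (mem_range.2 (h.lt c p hp).1))]
  refine (sum_le_sum fun x _ => h.left c x).trans (le_of_eq ?_)
  rw [sum_const, card_range, smul_eq_mul, mul_comm]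

omit [DecidableEq C] in
theorem Part.exists_left {g D N : ℕ} {B : C → Finset (ℕ × ℕ)} (h : Part C g D N B) {c : C}
    (hc : (B c).card < D * N) : ∃ x < N, ((B c).filter fun p => p.1 = x).card < D := by
  by_contra hcon
  push Not at hcon
  have h1 : D * N ≤ (B c).card := by
    rw [card_eq_sum_card_fiberwise (f := Prod.fst) (t := range N)
      (fun p hp => mem_coe.2 (mem_range.2 (h.lt c p hp).1))]
    calc D * N = ∑ _x ∈ range N, D := by rw [sum_const, card_range, smul_eq_mul, mul_comm]
      _ ≤ _ := sum_le_sum fun x hx => hcon x (mem_range.1 hx)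
  omega

omit [DecidableEq C] in
theorem Part.exists_right {g D N : ℕ} {B : C → Finset (ℕ × ℕ)} (h : Part C g D N B) {c : C}
    (hc : (B c).card < D * N) : ∃ y < N, ((B c).filter fun p => p.2 = y).card < D := by
  by_contra hcon
  push Not at hcon
  have h1 : D * N ≤ (B c).card := by
    rw [card_eq_sum_card_fiberwise (f := Prod.snd) (t := range N)
      (fun p hp => mem_coe.2 (mem_range.2 (h.lt c p hp).2))]
    calc D * N = ∑ _x ∈ range N, D := by rw [sum_const, card_range, smul_eq_mul, mul_comm]
      _ ≤ _ := sum_le_sum fun x hx => hcon x (mem_range.1 hx)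
  omega

omit [DecidableEq C] in
theorem Part.card_nb {g D N : ℕ} {B : C → Finset (ℕ × ℕ)} (h : Part C g D N B) (a : ℕ ⊕ ℕ) :
    (nb (univ.biUnion B) a).card ≤ Fintype.card C * D := by
  have key : ∀ (f : ℕ × ℕ → ℕ) (hf : ∀ c x, ((B c).filter fun p => f p = x).card ≤ D) (x : ℕ),
      ((univ.biUnion B).filter fun e => f e = x).card ≤ Fintype.card C * D := by
    intro f hf x
    have h1 : ((univ.biUnion B).filter fun e => f e = x) ⊆
        univ.biUnion fun c => (B c).filter fun e => f e = x := by
      intro e he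
      obtain ⟨h1, h2⟩ := mem_filter.1 he
      obtain ⟨c, hc, hec⟩ := mem_biUnion.1 h1
      exact mem_biUnion.2 ⟨c, hc, mem_filter.2 ⟨hec, h2⟩⟩
    refine (card_le_card h1).trans (card_biUnion_le.trans ((sum_le_sum fun c _ => hf c x).trans ?_))
    rw [sum_const, card_univ, smul_eq_mul]
  rcases a with a | a
  · exact card_image_le.trans (key Prod.fst h.left a)
  · exact card_image_le.trans (key Prod.snd h.right a)

omit [DecidableEq C] in
/-- There is an edge of the colour `c` which avoids a small set of vertices. -/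
theorem Part.exists_far {g D N : ℕ} {B : C → Finset (ℕ × ℕ)} (h : Part C g D N B) {c : C}
    (Z : Finset (ℕ ⊕ ℕ)) (hZ : D * Z.card < (B c).card) :
    ∃ p ∈ B c, (Sum.inl p.1 : ℕ ⊕ ℕ) ∉ Z ∧ (Sum.inr p.2 : ℕ ⊕ ℕ) ∉ Z := by
  by_contra hcon
  push Not at hcon
  have h1 : B c ⊆ Z.biUnion fun z => Sum.elim (fun x => (B c).filter fun p => p.1 = x)
      (fun y => (B c).filter fun p => p.2 = y) z := by
    intro p hp
    rw [mem_biUnion]
    by_cases h2 : (Sum.inl p.1 : ℕ ⊕ ℕ) ∈ Z
    · exact ⟨_, h2, mem_filter.2 ⟨hp, rfl⟩⟩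
    · exact ⟨_, hcon p hp h2, mem_filter.2 ⟨hp, rfl⟩⟩
  have h2 := card_le_card h1
  have h3 : (Z.biUnion fun z => Sum.elim (fun x => (B c).filter fun p => p.1 = x)
      (fun y => (B c).filter fun p => p.2 = y) z).card ≤ D * Z.card := by
    refine card_biUnion_le.trans ?_
    calc _ ≤ ∑ _z ∈ Z, D := by
          refine sum_le_sum fun z _ => ?_
          rcases z with z | z
          · exact h.left c z
          · exact h.right c z
      _ = D * Z.card := by rw [sum_const, smul_eq_mul, mul_comm]
  omega

theorem Part.step {g D N : ℕ} {B : C → Finset (ℕ × ℕ)} (h : Part C g D N B) (hg : 2 ≤ g) {c : C}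
    (hc : (B c).card < D * N) (hbig : D * (2 * (Fintype.card C * D + 1) ^ g) < (B c).card) :
    ∃ B' : C → Finset (ℕ × ℕ), Part C g D N B' ∧ (∀ c' ≠ c, B' c' = B c') ∧
      (B' c).card = (B c).card + 1 ∧ (B' c \ B c).card ≤ 2 := by
  obtain ⟨x, hxN, hx⟩ := h.exists_left hc
  obtain ⟨y, hyN, hy⟩ := h.exists_right hc
  set U : Finset (ℕ × ℕ) := univ.biUnion B with hU
  set Z : Finset (ℕ ⊕ ℕ) := ball U g (Sum.inl x) ∪ ball U g (Sum.inr y) with hZ
  have hZc : Z.card ≤ 2 * (Fintype.card C * D + 1) ^ g := by
    have h1 := card_ball (F := U) h.card_nb g (Sum.inl x)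
    have h2 := card_ball (F := U) h.card_nb g (Sum.inr y)
    have h3 := card_union_le (ball U g (Sum.inl x)) (ball U g (Sum.inr y))
    rw [← hZ] at h3
    omega
  obtain ⟨⟨x', y'⟩, hp, hx', hy'⟩ := h.exists_far (c := c) Z
    (lt_of_le_of_lt (Nat.mul_le_mul_left _ hZc) hbig)
  dsimp only at hx' hy'
  have hmemU : ∀ {p}, p ∈ U ↔ ∃ c, p ∈ B c := by
    intro p
    rw [hU, mem_biUnion]
    simp
  have n1 : ¬ Near (bip (U : Set (ℕ × ℕ))) g (Sum.inl x) (Sum.inr y') := fun hn =>
    hy' (mem_union_left _ (mem_ball hn))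
  have n2 : ¬ Near (bip (U : Set (ℕ × ℕ))) g (Sum.inl x) (Sum.inl x') := fun hn =>
    hx' (mem_union_left _ (mem_ball hn))
  have n3 : ¬ Near (bip (U : Set (ℕ × ℕ))) g (Sum.inr y) (Sum.inl x') := fun hn =>
    hx' (mem_union_right _ (mem_ball hn))
  have n4 : ¬ Near (bip (U : Set (ℕ × ℕ))) g (Sum.inr y) (Sum.inr y') := fun hn =>
    hy' (mem_union_right _ (mem_ball hn))
  have hxx' : x ≠ x' := by
    rintro rfl
    exact n2 ⟨Walk.nil, by rw [Walk.length_nil]; omega⟩
  have hyy' : y ≠ y' := by
    rintro rfl
    exact n4 ⟨Walk.nil, by rw [Walk.length_nil]; omega⟩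
  have hxy' : (x, y') ∉ U := by
    intro hmem
    apply n1
    have hadj : (bip (U : Set (ℕ × ℕ))).Adj (Sum.inl x) (Sum.inr y') := hmem
    exact ⟨Walk.cons hadj Walk.nil, by rw [Walk.length_cons, Walk.length_nil]; omega⟩
  have hx'y : (x', y) ∉ U := by
    intro hmem
    apply n3
    have hadj : (bip (U : Set (ℕ × ℕ))).Adj (Sum.inr y) (Sum.inl x') := hmem
    exact ⟨Walk.cons hadj Walk.nil, by rw [Walk.length_cons, Walk.length_nil]; omega⟩
  have hxy'B : ∀ c', (x, y') ∉ B c' := fun c' hm => hxy' (hmemU.2 ⟨c', hm⟩)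
  have hx'yB : ∀ c', (x', y) ∉ B c' := fun c' hm => hx'y (hmemU.2 ⟨c', hm⟩)
  set Bc : Finset (ℕ × ℕ) := insert (x', y) (insert (x, y') ((B c).erase (x', y'))) with hBc
  have hmemBc : ∀ {p}, p ∈ Bc ↔ p = (x', y) ∨ p = (x, y') ∨ (p ≠ (x', y') ∧ p ∈ B c) := by
    intro p
    rw [hBc, mem_insert, mem_insert, mem_erase]
  have hcardBc : Bc.card = (B c).card + 1 := by
    rw [hBc, card_insert_of_notMem, card_insert_of_notMem, card_erase_of_mem hp]
    · have : 0 < (B c).card := card_pos.2 ⟨_, hp⟩
      omega
    · rw [mem_erase]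
      rintro ⟨_, h1⟩
      exact hxy'B c h1
    · rw [mem_insert, mem_erase]
      rintro (h1 | ⟨_, h1⟩)
      · exact hxx' (Prod.mk.inj h1).1.symm
      · exact hx'yB c h1
  refine ⟨Function.update B c Bc, ?_, ?_, ?_, ?_⟩
  · refine ⟨?_, ?_, ?_, ?_, ?_⟩
    · intro c' p hp'
      by_cases hcc : c' = c
      · subst hcc
        rw [Function.update_self, hmemBc] at hp'
        have h1 := h.lt c' _ hp
        rcases hp' with rfl | rfl | ⟨_, hp'⟩
        · exact ⟨h1.1, hyN⟩
        · exact ⟨hxN, h1.2⟩
        · exact h.lt c' p hp'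
      · rw [Function.update_of_ne hcc] at hp'
        exact h.lt c' p hp'
    · have aux : ∀ c' p, c' ≠ c → p ∈ B c' → p ∉ Bc := by
        intro c' p hne hpB hpBc
        rw [hmemBc] at hpBc
        rcases hpBc with rfl | rfl | ⟨_, h1⟩
        · exact hx'yB c' hpB
        · exact hxy'B c' hpB
        · exact hne (h.disj c' c p hpB h1)
      intro c₁ c₂ p h1 h2
      by_cases hc1 : c₁ = c <;> by_cases hc2 : c₂ = c
      · rw [hc1, hc2]
      · subst hc1
        rw [Function.update_self] at h1
        rw [Function.update_of_ne hc2] at h2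
        exact absurd h1 (aux c₂ p hc2 h2)
      · subst hc2
        rw [Function.update_self] at h2
        rw [Function.update_of_ne hc1] at h1
        exact absurd h2 (aux c₁ p hc1 h1)
      · rw [Function.update_of_ne hc1] at h1
        rw [Function.update_of_ne hc2] at h2
        exact h.disj c₁ c₂ p h1 h2
    · intro c' z
      by_cases hcc : c' = c
      · subst hcc
        rw [Function.update_self]
        by_cases hz : z = x
        · subst hz
          have h1 : (Bc.filter fun p => p.1 = z) ⊆ insert (z, y') ((B c').filter fun p => p.1 = z) := by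
            intro p hpm
            obtain ⟨h1, h2⟩ := mem_filter.1 hpm
            rw [hmemBc] at h1
            rcases h1 with rfl | rfl | ⟨_, h1⟩
            · exact absurd h2.symm hxx'
            · exact mem_insert_self _ _
            · exact mem_insert_of_mem (mem_filter.2 ⟨h1, h2⟩)
          have h2 := (card_le_card h1).trans (card_insert_le _ _)
          omega
        · by_cases hz' : z = x'
          · subst hz'
            have h1 : (Bc.filter fun p => p.1 = z) ⊆
                insert (z, y) (((B c').filter fun p => p.1 = z).erase (z, y')) := by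
              intro p hpm
              obtain ⟨h1, h2⟩ := mem_filter.1 hpm
              rw [hmemBc] at h1
              rcases h1 with rfl | rfl | ⟨h0, h1⟩
              · exact mem_insert_self _ _
              · exact absurd h2.symm hz
              · exact mem_insert_of_mem (mem_erase.2 ⟨h0, mem_filter.2 ⟨h1, h2⟩⟩)
            have hin : (z, y') ∈ (B c').filter fun p => p.1 = z := mem_filter.2 ⟨hp, rfl⟩
            have h2 := (card_le_card h1).trans (card_insert_le _ _)
            rw [card_erase_of_mem hin] at h2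
            have h3 := h.left c' z
            have h4 : 0 < ((B c').filter fun p => p.1 = z).card := card_pos.2 ⟨_, hin⟩
            omega
          · have h1 : (Bc.filter fun p => p.1 = z) ⊆ (B c').filter fun p => p.1 = z := by
              intro p hpm
              obtain ⟨h1, h2⟩ := mem_filter.1 hpm
              rw [hmemBc] at h1
              rcases h1 with rfl | rfl | ⟨_, h1⟩
              · exact absurd h2.symm hz'
              · exact absurd h2.symm hz
              · exact mem_filter.2 ⟨h1, h2⟩
            exact (card_le_card h1).trans (h.left c' z)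
      · rw [Function.update_of_ne hcc]
        exact h.left c' z
    · intro c' z
      by_cases hcc : c' = c
      · subst hcc
        rw [Function.update_self]
        by_cases hz : z = y
        · subst hz
          have h1 : (Bc.filter fun p => p.2 = z) ⊆ insert (x', z) ((B c').filter fun p => p.2 = z) := by
            intro p hpm
            obtain ⟨h1, h2⟩ := mem_filter.1 hpm
            rw [hmemBc] at h1
            rcases h1 with rfl | rfl | ⟨_, h1⟩
            · exact mem_insert_self _ _
            · exact absurd h2.symm hyy'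
            · exact mem_insert_of_mem (mem_filter.2 ⟨h1, h2⟩)
          have h2 := (card_le_card h1).trans (card_insert_le _ _)
          omega
        · by_cases hz' : z = y'
          · subst hz'
            have h1 : (Bc.filter fun p => p.2 = z) ⊆
                insert (x, z) (((B c').filter fun p => p.2 = z).erase (x', z)) := by
              intro p hpm
              obtain ⟨h1, h2⟩ := mem_filter.1 hpm
              rw [hmemBc] at h1
              rcases h1 with rfl | rfl | ⟨h0, h1⟩
              · exact absurd h2.symm hz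
              · exact mem_insert_self _ _
              · exact mem_insert_of_mem (mem_erase.2 ⟨h0, mem_filter.2 ⟨h1, h2⟩⟩)
            have hin : (x', z) ∈ (B c').filter fun p => p.2 = z := mem_filter.2 ⟨hp, rfl⟩
            have h2 := (card_le_card h1).trans (card_insert_le _ _)
            rw [card_erase_of_mem hin] at h2
            have h3 := h.right c' z
            have h4 : 0 < ((B c').filter fun p => p.2 = z).card := card_pos.2 ⟨_, hin⟩
            omega
          · have h1 : (Bc.filter fun p => p.2 = z) ⊆ (B c').filter fun p => p.2 = z := by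
              intro p hpm
              obtain ⟨h1, h2⟩ := mem_filter.1 hpm
              rw [hmemBc] at h1
              rcases h1 with rfl | rfl | ⟨_, h1⟩
              · exact absurd h2.symm hz
              · exact absurd h2.symm hz'
              · exact mem_filter.2 ⟨h1, h2⟩
            exact (card_le_card h1).trans (h.right c' z)
      · rw [Function.update_of_ne hcc]
        exact h.right c' z
    · -- girth
      set F₁ : Finset (ℕ × ℕ) := U.erase (x', y') with hF₁
      set F₂ : Finset (ℕ × ℕ) := insert (x, y') F₁ with hF₂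
      set F₃ : Finset (ℕ × ℕ) := insert (x', y) F₂ with hF₃
      have hle : bip (F₁ : Set (ℕ × ℕ)) ≤ bip (U : Set (ℕ × ℕ)) := by
        intro a b hab
        rcases a with a | a <;> rcases b with b | b
        · exact hab.elim
        · exact mem_coe.2 (mem_of_mem_erase (mem_coe.1 hab))
        · exact mem_coe.2 (mem_of_mem_erase (mem_coe.1 hab))
        · exact hab.elim
      have hins : ∀ (F : Finset (ℕ × ℕ)) (u v : ℕ) (a b : ℕ ⊕ ℕ),
          (bip ((insert (u, v) F : Finset (ℕ × ℕ)) : Set (ℕ × ℕ))).Adj a b →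
          (bip (F : Set (ℕ × ℕ))).Adj a b ∨ s(a, b) = s(Sum.inl u, Sum.inr v) := by
        intro F u v a b hab
        rcases a with a | a <;> rcases b with b | b
        · exact hab.elim
        · rcases mem_insert.1 (mem_coe.1 hab) with h1 | h1
          · right
            rw [(Prod.mk.inj h1).1, (Prod.mk.inj h1).2]
          · exact Or.inl h1
        · rcases mem_insert.1 (mem_coe.1 hab) with h1 | h1
          · right
            rw [(Prod.mk.inj h1).1, (Prod.mk.inj h1).2, Sym2.eq_swap]
          · exact Or.inl h1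
        · exact hab.elim
      have g1 : GirthGT (bip (F₁ : Set (ℕ × ℕ))) g := h.girth.anti hle
      have g2 : GirthGT (bip (F₂ : Set (ℕ × ℕ))) g :=
        g1.add (u := Sum.inl x) (v := Sum.inr y') (fun hn => n1 (hn.mono hle)) (hins F₁ x y')
      have hadj : (bip (U : Set (ℕ × ℕ))).Adj (Sum.inl x') (Sum.inr y') :=
        mem_coe.2 (hmemU.2 ⟨c, hp⟩)
      have g3 : GirthGT (bip (F₃ : Set (ℕ × ℕ))) g := by
        refine g2.add (u := Sum.inl x') (v := Sum.inr y) ?_ (hins F₂ x' y)
        rintro ⟨p, hp'⟩
        rcases first_use (hins F₁ x y') p hp' with h1 | h1 | h1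
        · exact n3 (h1.symm.mono hle)
        · exact n2 (h1.symm.mono hle)
        · refine h.girth.not_near hadj hle ?_ h1
          intro h2
          exact (mem_erase.1 (mem_coe.1 h2)).1 rfl
      have hsub : ((univ.biUnion (Function.update B c Bc) : Finset (ℕ × ℕ)) : Set (ℕ × ℕ)) ⊆
          (F₃ : Set (ℕ × ℕ)) := by
        intro p hpm
        rw [mem_coe, mem_biUnion] at hpm
        obtain ⟨c', _, hc'⟩ := hpm
        rw [mem_coe, hF₃, hF₂, hF₁, mem_insert, mem_insert, mem_erase]
        by_cases hcc : c' = c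
        · subst hcc
          rw [Function.update_self, hmemBc] at hc'
          rcases hc' with h1 | h1 | ⟨h0, h1⟩
          · exact Or.inl h1
          · exact Or.inr (Or.inl h1)
          · exact Or.inr (Or.inr ⟨h0, hmemU.2 ⟨_, h1⟩⟩)
        · rw [Function.update_of_ne hcc] at hc'
          refine Or.inr (Or.inr ⟨?_, hmemU.2 ⟨_, hc'⟩⟩)
          rintro rfl
          exact hcc (h.disj _ _ _ hc' hp)
      refine g3.anti ?_
      intro a b hab
      rcases a with a | a <;> rcases b with b | b
      · exact hab.elim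
      · exact hsub hab
      · exact hsub hab
      · exact hab.elim
  · intro c' hc'
    exact Function.update_of_ne hc' _ _
  · rw [Function.update_self]
    exact hcardBc
  · rw [Function.update_self]
    have h1 : Bc \ B c ⊆ {(x', y), (x, y')} := by
      intro p hpm
      obtain ⟨h1, h2⟩ := mem_sdiff.1 hpm
      rw [mem_insert, mem_singleton]
      rw [hmemBc] at h1
      rcases h1 with h1 | h1 | ⟨_, h1⟩
      · exact Or.inl h1
      · exact Or.inr h1
      · exact absurd h1 h2
    exact (card_le_card h1).trans card_le_two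

theorem Part.complete {g D N : ℕ} (hg : 2 ≤ g) : ∀ (m : ℕ) {B : C → Finset (ℕ × ℕ)},
    Part C g D N B → ∑ c, (D * N - (B c).card) = m →
    (∀ c, D * (2 * (Fintype.card C * D + 1) ^ g) < (B c).card) →
    ∃ B' : C → Finset (ℕ × ℕ), Part C g D N B' ∧ (∀ c, (B' c).card = D * N) ∧
      ∀ c, (B' c \ B c).card ≤ 2 * (D * N - (B c).card) := by
  intro m
  induction m with
  | zero =>
    intro B h hm _
    refine ⟨B, h, fun c => ?_, fun c => by simp⟩
    have h1 := (sum_eq_zero_iff.1 hm) c (mem_univ c)
    have h2 := h.card_le c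
    omega
  | succ m ih =>
    intro B h hm hbig
    obtain ⟨c, hc⟩ : ∃ c, (B c).card < D * N := by
      by_contra hcon
      push Not at hcon
      have h1 : ∑ c, (D * N - (B c).card) = 0 := sum_eq_zero fun c _ => by
        have := hcon c
        omega
      omega
    obtain ⟨B₁, h1, h2, h3, h4⟩ := h.step hg hc (hbig c)
    have hsum : ∑ c, (D * N - (B₁ c).card) = m := by
      have e1 := Finset.add_sum_erase univ (fun c => D * N - (B c).card) (mem_univ c)
      have e2 := Finset.add_sum_erase univ (fun c => D * N - (B₁ c).card) (mem_univ c)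
      have e3 : ∑ c' ∈ univ.erase c, (D * N - (B₁ c').card) =
          ∑ c' ∈ univ.erase c, (D * N - (B c').card) :=
        sum_congr rfl fun c' hc' => by rw [h2 c' (ne_of_mem_erase hc')]
      beta_reduce at e1 e2
      omega
    obtain ⟨B₂, h5, h6, h7⟩ := ih h1 hsum (fun c' => by
      by_cases hcc : c' = c
      · subst hcc
        have := hbig c'
        omega
      · rw [h2 c' hcc]
        exact hbig c')
    refine ⟨B₂, h5, h6, fun c' => ?_⟩
    by_cases hcc : c' = c
    · subst hcc
      have h8 := h7 c'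
      have h9 : (B₂ c' \ B c').card ≤ (B₂ c' \ B₁ c').card + (B₁ c' \ B c').card := by
        refine (card_le_card ?_).trans (card_union_le _ _)
        intro p hp
        obtain ⟨a1, a2⟩ := mem_sdiff.1 hp
        by_cases a3 : p ∈ B₁ c'
        · exact mem_union_right _ (mem_sdiff.2 ⟨a3, a2⟩)
        · exact mem_union_left _ (mem_sdiff.2 ⟨a1, a3⟩)
      omega
    · have h8 := h7 c'
      rwa [h2 c' hcc] at h8

/-- A regular gadget. -/
structure RGadget (C : Type) [Fintype C] (g : ℕ) (τ : ℝ) (D N : ℕ) (B : C → Finset (ℕ × ℕ)) :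
    Prop where
  posD : 0 < D
  posN : 0 < N
  lt : ∀ c, ∀ p ∈ B c, p.1 < N ∧ p.2 < N
  disj : ∀ c c' p, p ∈ B c → p ∈ B c' → c = c'
  left : ∀ c, ∀ x < N, ((B c).filter fun p => p.1 = x).card = D
  right : ∀ c, ∀ y < N, ((B c).filter fun p => p.2 = y).card = D
  disc : ∀ c, ∀ A ⊆ range N, ∀ A' ⊆ range N,
    (((B c).filter fun p => p.1 ∈ A ∧ p.2 ∈ A').card : ℝ) ≤
      D * A.card * A'.card / N + τ * D * N
  girth : GirthGT (bip ((univ.biUnion B : Finset (ℕ × ℕ)) : Set (ℕ × ℕ))) g

omit [DecidableEq C] in
theorem RGadget.card {g D N : ℕ} {τ : ℝ} {B : C → Finset (ℕ × ℕ)} (h : RGadget C g τ D N B)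
    (c : C) : (B c).card = D * N := by
  rw [card_eq_sum_card_fiberwise (f := Prod.fst) (t := range N)
    (fun p hp => mem_coe.2 (mem_range.2 (h.lt c p hp).1))]
  rw [sum_congr rfl fun x hx => h.left c x (mem_range.1 hx), sum_const, card_range, smul_eq_mul,
    mul_comm]

omit [DecidableEq C] in
theorem Gadget.trim {g D N : ℕ} {τ : ℝ} {B : C → Finset (ℕ × ℕ)} (h : Gadget C g τ D N B) :
    ∃ B₁ : C → Finset (ℕ × ℕ), (∀ c, B₁ c ⊆ B c) ∧
      (∀ c y, ((B₁ c).filter fun p => p.2 = y).card ≤ D) ∧
      ∀ c, (1 - 7 * τ) * D * N ≤ (B₁ c).card := by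
  classical
  have hN : (0 : ℝ) < N := by exact_mod_cast h.posN
  have h1 : ∀ (c : C) (y : ℕ), ∃ T ⊆ (B c).filter fun p => p.2 = y,
      T.card = min D ((B c).filter fun p => p.2 = y).card := fun c y =>
    exists_subset_card_eq (min_le_right _ _)
  choose T hT hTc using h1
  refine ⟨fun c => (range N).biUnion (T c), ?_, ?_, ?_⟩
  · intro c p hp
    obtain ⟨y, _, hy⟩ := mem_biUnion.1 hp
    exact (mem_filter.1 (hT c y hy)).1
  · intro c y
    have h2 : (((range N).biUnion (T c)).filter fun p => p.2 = y) ⊆ T c y := by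
      intro p hp
      obtain ⟨h3, h4⟩ := mem_filter.1 hp
      obtain ⟨y', _, hy'⟩ := mem_biUnion.1 h3
      have h5 := (mem_filter.1 (hT c y' hy')).2
      rw [← h4, h5]
      exact hy'
    refine (card_le_card h2).trans ?_
    rw [hTc]
    exact min_le_left _ _
  · intro c
    have hcard : ((range N).biUnion (T c)).card =
        ∑ y ∈ range N, min D ((B c).filter fun p => p.2 = y).card := by
      rw [card_biUnion]
      · exact sum_congr rfl fun y _ => hTc c y
      · intro y _ y' _ hne
        rw [Function.onFun, Finset.disjoint_left]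
        intro p hp hp'
        exact hne ((mem_filter.1 (hT c y hp)).2.symm.trans (mem_filter.1 (hT c y' hp')).2)
    have htot : (B c).card = ∑ y ∈ range N, ((B c).filter fun p => p.2 = y).card :=
      card_eq_sum_card_fiberwise (f := Prod.snd) (t := range N)
        (fun p hp => mem_coe.2 (mem_range.2 (h.lt c p hp).2))
    set Hi : Finset ℕ := (range N).filter fun y => D < ((B c).filter fun p => p.2 = y).card with hHi
    have hsplit : ∑ y ∈ range N, ((B c).filter fun p => p.2 = y).card + D * Hi.card =
        ∑ y ∈ range N, min D ((B c).filter fun p => p.2 = y).card +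
        ∑ y ∈ Hi, ((B c).filter fun p => p.2 = y).card := by
      have e1 : D * Hi.card = ∑ y ∈ range N,
          if D < ((B c).filter fun p => p.2 = y).card then D else 0 := by
        rw [← sum_filter, sum_const, smul_eq_mul, mul_comm]
      have e2 : ∑ y ∈ Hi, ((B c).filter fun p => p.2 = y).card = ∑ y ∈ range N,
          if D < ((B c).filter fun p => p.2 = y).card then ((B c).filter fun p => p.2 = y).card
          else 0 := by
        rw [← sum_filter]
      rw [e1, e2, ← sum_add_distrib, ← sum_add_distrib]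
      refine sum_congr rfl fun y _ => ?_
      split_ifs with h3
      · rw [min_eq_left h3.le, add_comm]
      · rw [min_eq_right (by omega)]
    have hHi2 : ∑ y ∈ Hi, ((B c).filter fun p => p.2 = y).card =
        ((B c).filter fun p => p.1 ∈ range N ∧ p.2 ∈ Hi).card := by
      rw [card_eq_sum_card_fiberwise (f := Prod.snd) (t := Hi)
        (s := (B c).filter fun p => p.1 ∈ range N ∧ p.2 ∈ Hi)
        (fun p hp => (mem_filter.1 hp).2.2)]
      refine sum_congr rfl fun y hy => ?_
      congr 1
      ext p
      simp only [mem_filter, mem_range]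
      constructor
      · rintro ⟨h3, h4⟩
        exact ⟨⟨h3, (h.lt c p h3).1, by rw [h4]; exact hy⟩, h4⟩
      · rintro ⟨⟨h3, _, _⟩, h4⟩
        exact ⟨h3, h4⟩
    have hdisc := h.disc c (range N) (Subset.refl _) Hi (filter_subset _ _)
    rw [card_range, ← hHi2] at hdisc
    have e3 : (D * N * Hi.card / N + τ * D * N : ℝ) = D * Hi.card + τ * D * N := by
      field_simp
    rw [e3] at hdisc
    have hc := h.card c
    rw [htot] at hc
    rw [hcard]
    have hsplit' : (((∑ y ∈ range N, ((B c).filter fun p => p.2 = y).card : ℕ) : ℝ) + D * Hi.card) =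
        ((∑ y ∈ range N, min D ((B c).filter fun p => p.2 = y).card : ℕ) : ℝ) +
        ((∑ y ∈ Hi, ((B c).filter fun p => p.2 = y).card : ℕ) : ℝ) := by exact_mod_cast hsplit
    linarith

/-- Regular gadgets exist. -/
theorem exists_rgadget [Nonempty C] (g : ℕ) (hg : 2 ≤ g) {τ : ℝ} (hτ : 0 < τ) :
    ∃ D N : ℕ, ∃ B : C → Finset (ℕ × ℕ), RGadget C g τ D N B := by
  classical
  set σ : ℝ := min (1 / 14) (τ / 15) with hσ
  have hσ0 : 0 < σ := lt_min (by norm_num) (by positivity)
  have hσ1 : σ ≤ 1 / 14 := min_le_left _ _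
  have hσ2 : 15 * σ ≤ τ := by
    have : σ ≤ τ / 15 := min_le_right _ _
    linarith
  obtain ⟨D, N, hνN, B, hB⟩ := exists_gadget' (C := C) g hg hσ0 (by linarith)
    fun D => 4 * (2 * (Fintype.card C * D + 1) ^ g) + 1
  obtain ⟨B₁, h1, h2, h3⟩ := hB.trim
  have hD : (0 : ℝ) < D := by exact_mod_cast hB.posD
  have hN : (0 : ℝ) < N := by exact_mod_cast hB.posN
  have hP : Part C g D N B₁ := by
    refine ⟨fun c p hp => hB.lt c p (h1 c hp), fun c c' p hp hp' => hB.disj c c' p (h1 c hp)
      (h1 c' hp'), fun c x => ?_, h2, ?_⟩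
    · exact (card_le_card (filter_subset_filter _ (h1 c))).trans (hB.left c x)
    · refine (girthGT_of_sparse hB.sparse).anti ?_
      have hsub : ∀ p, p ∈ univ.biUnion B₁ → p ∈ univ.biUnion B := by
        intro p hp
        obtain ⟨c, _, hc⟩ := mem_biUnion.1 hp
        exact mem_biUnion.2 ⟨c, mem_univ _, h1 c hc⟩
      intro a b hab
      rcases a with a | a <;> rcases b with b | b
      · exact hab.elim
      · exact mem_coe.2 (hsub _ (mem_coe.1 hab))
      · exact mem_coe.2 (hsub _ (mem_coe.1 hab))
      · exact hab.elim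
  have hhalf : ∀ c, (D * N : ℝ) / 2 ≤ (B₁ c).card := by
    intro c
    refine le_trans ?_ (h3 c)
    have h4 : (1 / 2 : ℝ) ≤ 1 - 7 * σ := by linarith
    have h5 := mul_le_mul_of_nonneg_right h4 (show (0 : ℝ) ≤ D * N by positivity)
    linarith
  have hbig : ∀ c, D * (2 * (Fintype.card C * D + 1) ^ g) < (B₁ c).card := by
    intro c
    have h4 := hhalf c
    have h5 : ((4 * (2 * (Fintype.card C * D + 1) ^ g) + 1 : ℕ) : ℝ) ≤ N := by exact_mod_cast hνN
    have h6 : ((D * (2 * (Fintype.card C * D + 1) ^ g) : ℕ) : ℝ) < (B₁ c).card := by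
      refine lt_of_lt_of_le ?_ h4
      generalize 2 * (Fintype.card C * D + 1) ^ g = X at h5 ⊢
      push_cast at h5 ⊢
      have h7 := mul_le_mul_of_nonneg_left h5 hD.le
      have h8 : (0 : ℝ) ≤ D * X := by positivity
      linarith
    exact_mod_cast h6
  obtain ⟨B', h4, h5, h6⟩ := hP.complete hg _ rfl hbig
  have hfill : ∀ (f : ℕ × ℕ → ℕ) (c : C), (∀ p ∈ B' c, f p < N) →
      (∀ x, ((B' c).filter fun p => f p = x).card ≤ D) →
      ∀ x < N, ((B' c).filter fun p => f p = x).card = D := by
    intro f c hf hle x hx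
    by_contra hne
    have h7 : ((B' c).filter fun p => f p = x).card < D := lt_of_le_of_ne (hle x) hne
    have h8 : (B' c).card < ∑ _x ∈ range N, D := by
      rw [card_eq_sum_card_fiberwise (f := f) (t := range N)
        (fun p hp => mem_coe.2 (mem_range.2 (hf p hp)))]
      exact sum_lt_sum (fun y _ => hle y) ⟨x, mem_range.2 hx, h7⟩
    rw [sum_const, card_range, smul_eq_mul, mul_comm] at h8
    have := h5 c
    omega
  refine ⟨D, N, B', hB.posD, hB.posN, h4.lt, h4.disj,
    fun c => hfill Prod.fst c (fun p hp => (h4.lt c p hp).1) (h4.left c),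
    fun c => hfill Prod.snd c (fun p hp => (h4.lt c p hp).2) (h4.right c), ?_, h4.girth⟩
  intro c A hA A' hA'
  have h7 : (((B' c).filter fun p => p.1 ∈ A ∧ p.2 ∈ A').card : ℝ) ≤
      ((B c).filter fun p => p.1 ∈ A ∧ p.2 ∈ A').card + (B' c \ B₁ c).card := by
    have h8 : ((B' c).filter fun p => p.1 ∈ A ∧ p.2 ∈ A') ⊆
        ((B c).filter fun p => p.1 ∈ A ∧ p.2 ∈ A') ∪ (B' c \ B₁ c) := by
      intro p hp
      obtain ⟨a1, a2⟩ := mem_filter.1 hp
      by_cases a3 : p ∈ B₁ c
      · exact mem_union_left _ (mem_filter.2 ⟨h1 c a3, a2⟩)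
      · exact mem_union_right _ (mem_sdiff.2 ⟨a1, a3⟩)
    exact_mod_cast (card_le_card h8).trans (card_union_le _ _)
  have h8 := hB.disc c A hA A' hA'
  have h9 : ((B' c \ B₁ c).card : ℝ) ≤ 14 * σ * D * N := by
    have a1 := h6 c
    have a2 := hP.card_le c
    have a3 : (B' c \ B₁ c).card + 2 * (B₁ c).card ≤ 2 * (D * N) := by omega
    have a4 : ((B' c \ B₁ c).card : ℝ) + 2 * (B₁ c).card ≤ 2 * (D * N) := by exact_mod_cast a3
    have a5 := h3 c
    linarith
  have h10 : (0 : ℝ) ≤ D * N := by positivity
  have h11 := mul_le_mul_of_nonneg_right hσ2 h10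
  linarith

end Pool.Agent.H697.Exp
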