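import Mathlib

/-!
# Weights for the spectral gap of the Margulis-Gabber-Galil graphs
-/

namespace Pool.Agent.H697.Exp

variable {n : ℕ} [NeZero n]

/-- The distance of a residue to `0`. -/
def wt (x : ZMod n) : ℕ := x.valMinAbs.natAbs

/-- The weight of a pair of sizes. -/
noncomputable def gam (a b : ℕ) : ℝ := if b < a then 5 / 4 else if a < b then 4 / 5 else 1

theorem gam_le (a b : ℕ) : gam a b ≤ 5 / 4 := by
  unfold gam; split_ifs <;> norm_num

theorem amgm (a b : ℕ) (u v : ℝ) : 2 * (u * v) ≤ gam a b * u ^ 2 + gam b a * v ^ 2 := by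
  unfold gam
  rcases lt_trichotomy a b with h | h | h
  · rw [if_neg (by omega), if_pos h, if_pos h]
    nlinarith [sq_nonneg (4 * u - 5 * v)]
  · subst h
    simp only [lt_irrefl, if_false]
    nlinarith [sq_nonneg (u - v)]
  · rw [if_pos h, if_neg (by omega), if_pos h]
    nlinarith [sq_nonneg (5 * u - 4 * v)]

theorem two_wt_le (x : ZMod n) : 2 * wt x ≤ n := by
  have := ZMod.natAbs_valMinAbs_le x
  unfold wt
  omega

theorem shift_cases {x y : ZMod n} (h : 2 * (wt x + wt y) < n) (s : ℤ) (hs : s = 1 ∨ s = -1) :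
    (y + 2 * s * x).valMinAbs = y.valMinAbs + 2 * s * x.valMinAbs ∨
    (y + 2 * s * x).valMinAbs = y.valMinAbs + 2 * s * x.valMinAbs - n ∨
    (y + 2 * s * x).valMinAbs = y.valMinAbs + 2 * s * x.valMinAbs + n := by
  set P := (y + 2 * s * x).valMinAbs with hP
  set X := x.valMinAbs with hX
  set Y := y.valMinAbs with hY
  have hdvd : (n : ℤ) ∣ (Y + 2 * s * X) - P := by
    rw [← ZMod.intCast_zmod_eq_zero_iff_dvd]
    push_cast
    rw [hX, hY, hP, ZMod.coe_valMinAbs, ZMod.coe_valMinAbs, ZMod.coe_valMinAbs]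
    ring
  obtain ⟨k, hk⟩ := hdvd
  have h1 := (y + 2 * s * x).valMinAbs_mem_Ioc
  rw [← hP] at h1
  have h2 := h1.1
  have h3 := h1.2
  have h4 : 2 * (X.natAbs + Y.natAbs) < n := h
  have hn : (0 : ℤ) < n := by exact_mod_cast NeZero.pos n
  have hkl : -2 < k := by
    by_contra hcon
    have : (n : ℤ) * k ≤ n * (-2) := by
      apply mul_le_mul_of_nonneg_left _ hn.le
      omega
    rcases hs with rfl | rfl <;> omega
  have hkr : k < 2 := by
    by_contra hcon
    have : (n : ℤ) * 2 ≤ n * k := by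
      apply mul_le_mul_of_nonneg_left _ hn.le
      omega
    rcases hs with rfl | rfl <;> omega
  have : k = -1 ∨ k = 0 ∨ k = 1 := by omega
  rcases this with rfl | rfl | rfl
  · right; right; linarith
  · left; linarith
  · right; left; linarith

/-- The sum of the two weights. -/
noncomputable def gsum (x y : ZMod n) : ℝ :=
  gam (wt y) (wt (y - 2 * x)) + gam (wt y) (wt (y + 2 * x))

theorem gsum_le' (x y : ZMod n) : gsum x y ≤ 5 / 2 := by
  unfold gsum
  linarith [gam_le (wt y) (wt (y - 2 * x)), gam_le (wt y) (wt (y + 2 * x))]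

theorem gsum_le {x y : ZMod n} (h : 2 * (wt x + wt y) < n) (h0 : x ≠ 0 ∨ y ≠ 0) :
    gsum x y ≤ if wt y < wt x then 8 / 5 else if wt x = wt y then 9 / 5 else 41 / 20 := by
  have c1 := shift_cases h 1 (Or.inl rfl)
  have c2 := shift_cases h (-1) (Or.inr rfl)
  have e1 : y + 2 * ((1 : ℤ) : ZMod n) * x = y + 2 * x := by push_cast; ring
  have e2 : y + 2 * ((-1 : ℤ) : ZMod n) * x = y - 2 * x := by push_cast; ring
  rw [e1] at c1
  rw [e2] at c2
  have hP := (y + 2 * x).valMinAbs_mem_Ioc
  have hM := (y - 2 * x).valMinAbs_mem_Ioc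
  have h0' : 0 < wt x ∨ 0 < wt y := by
    rcases h0 with h0 | h0
    · left
      unfold wt
      rw [Int.natAbs_pos]
      intro hc
      exact h0 ((ZMod.valMinAbs_eq_zero x).1 hc)
    · right
      unfold wt
      rw [Int.natAbs_pos]
      intro hc
      exact h0 ((ZMod.valMinAbs_eq_zero y).1 hc)
  unfold gsum
  unfold wt at *
  have hP1 := hP.1
  have hP2 := hP.2
  have hM1 := hM.1
  have hM2 := hM.2
  generalize (y + 2 * x).valMinAbs = P at *
  generalize (y - 2 * x).valMinAbs = M at *
  generalize x.valMinAbs = X at *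
  generalize y.valMinAbs = Y at *
  clear hP hM e1 e2 h0
  unfold gam
  split_ifs <;> first | (exfalso; omega) | norm_num

theorem point {x y : ZMod n} (h0 : x ≠ 0 ∨ y ≠ 0) {a b : ℝ} (ha : 0 ≤ a) (hb : 0 ≤ b)
    (ha1 : a ≤ 1) (hb1 : b ≤ 1) (hab : n ≤ 2 * (wt x + wt y) → (a + b) ^ 2 ≤ 2) :
    a * gsum x y + b * gsum y x ≤ 73 / 20 := by
  by_cases h : 2 * (wt x + wt y) < n
  · have h1 := gsum_le h h0
    have h2 := gsum_le (x := y) (y := x) (by omega) (by tauto)
    have g1 : 0 ≤ gsum x y := by unfold gsum gam; split_ifs <;> norm_num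
    have g2 : 0 ≤ gsum y x := by unfold gsum gam; split_ifs <;> norm_num
    have h3 : a * gsum x y ≤ gsum x y := mul_le_of_le_one_left g1 ha1
    have h4 : b * gsum y x ≤ gsum y x := mul_le_of_le_one_left g2 hb1
    rcases lt_trichotomy (wt x) (wt y) with hl | hl | hl
    · rw [if_neg (by omega), if_neg (by omega)] at h1
      rw [if_pos hl] at h2
      linarith
    · rw [if_neg (by omega), if_pos hl] at h1
      rw [if_neg (by omega), if_pos hl.symm] at h2
      linarith
    · rw [if_pos hl] at h1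
      rw [if_neg (by omega), if_neg (by omega)] at h2
      linarith
  · have h1 := hab (by omega)
    have h2 : a + b ≤ 73 / 50 := by
      by_contra hcon
      nlinarith
    have h3 : a * gsum x y ≤ a * (5 / 2) := mul_le_mul_of_nonneg_left (gsum_le' x y) ha
    have h4 : b * gsum y x ≤ b * (5 / 2) := mul_le_mul_of_nonneg_left (gsum_le' y x) hb
    linarith

end Pool.Agent.H697.Exp
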